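import Pool.Agent.Lib.Helper64.Skew.FixedT
import Pool.Agent.Lib.Helper20.Skew.Slices
import Pool.Agent.Lib.Helper20.Skew.TErgodic
import Pool.Agent.Lib.Skew.AEMain

/-!
# Assembly: ergodicity of almost every skew product
-/

open MeasureTheory Set Filter Topology

set_option linter.unusedSectionVars false

namespace SkewHM

open SkewIET

section Joint

variable {m : ℕ}

lemma measurable_simplexMap : Measurable (simplexMap m) := by
  refine measurable_pi_lambda _ fun j => ?_
  unfold simplexMap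
  refine Fin.lastCases ?_ (fun i => ?_) j
  · simp only [Fin.snoc_last]
    exact measurable_const.sub (Finset.measurable_fun_sum _ fun i _ => measurable_pi_apply i)
  · simp only [Fin.snoc_castSucc]
    exact measurable_pi_apply i

lemma measurable_left (p : Equiv.Perm (Fin (m + 1))) (j : Fin (m + 1)) :
    Measurable fun x : Fin m → ℝ => left p (simplexMap m x) j := by
  unfold left
  exact Finset.measurable_fun_sum _ fun i _ => (measurable_pi_apply i).comp measurable_simplexMap

lemma measurableSet_piece (p : Equiv.Perm (Fin (m + 1))) (j : Fin (m + 1)) :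
    MeasurableSet {q : (Fin m → ℝ) × ℝ | q.2 ∈ piece p (simplexMap m q.1) j} := by
  have h1 : Measurable fun q : (Fin m → ℝ) × ℝ => left p (simplexMap m q.1) j :=
    (measurable_left p j).comp measurable_fst
  have h2 : Measurable fun q : (Fin m → ℝ) × ℝ => simplexMap m q.1 j :=
    ((measurable_pi_apply j).comp measurable_simplexMap).comp measurable_fst
  exact (measurableSet_le h1 measurable_snd).inter (measurableSet_lt measurable_snd (h1.add h2))

lemma measurable_joint_iet (p : Equiv.Perm (Fin (m + 1))) :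
    Measurable fun q : (Fin m → ℝ) × ℝ => iet (Equiv.refl _) p (simplexMap m q.1) q.2 := by
  unfold iet
  refine measurable_snd.add (Finset.measurable_fun_sum _ fun j _ => ?_)
  have h1 : Measurable fun q : (Fin m → ℝ) × ℝ =>
      left p (simplexMap m q.1) j - left (Equiv.refl _) (simplexMap m q.1) j :=
    ((measurable_left p j).comp measurable_fst).sub
      ((measurable_left (Equiv.refl _) j).comp measurable_fst)
  exact h1.indicator (measurableSet_piece (Equiv.refl _) j)

open Classical in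
/-- the choice function underlying `label` -/
noncomputable def pick (s : Fin (m + 1) → Prop) : Fin (m + 1) :=
  if h : ∃ j, s j then h.choose else 0

lemma measurable_joint_label :
    Measurable fun q : (Fin m → ℝ) × ℝ => label (Equiv.refl _) (simplexMap m q.1) q.2 := by
  have h1 : (fun q : (Fin m → ℝ) × ℝ => label (Equiv.refl _) (simplexMap m q.1) q.2)
      = fun q => pick fun j => q.2 ∈ piece (Equiv.refl _) (simplexMap m q.1) j := rfl
  rw [h1]
  have h2 : Measurable fun q : (Fin m → ℝ) × ℝ =>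
      (fun j => q.2 ∈ piece (Equiv.refl _) (simplexMap m q.1) j : Fin (m + 1) → Prop) :=
    measurable_pi_lambda _ fun j => measurableSet_setOfPred.mp (measurableSet_piece (Equiv.refl _) j)
  exact (Measurable.of_discrete (f := pick (m := m))).comp h2

end Joint

section Main

variable {d m : ℕ}

/-- The skew product over the interval exchange with permutation `p` and lengths
`simplexMap m x` defined by the simple function with values `g`. -/
noncomputable def skewProduct (Γ : Subgroup (SLR d)) (p : Equiv.Perm (Fin (m + 1)))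
    (x : Fin m → ℝ) (g : Fin (m + 1) → SLR d) (q : ℝ × (SLR d ⧸ Γ)) : ℝ × (SLR d ⧸ Γ) :=
  (iet (Equiv.refl _) p (simplexMap m x) q.1,
    g (label (Equiv.refl _) (simplexMap m x) q.1) • q.2)

variable (Γ : Subgroup (SLR d)) [IsClosed (Γ : Set (SLR d))]
  [MeasurableSpace (SLR d)] [BorelSpace (SLR d)]
  [MeasurableSpace (SLR d ⧸ Γ)] [BorelSpace (SLR d ⧸ Γ)]
  (ν : Measure (SLR d ⧸ Γ)) [IsProbabilityMeasure ν]
  [SMulInvariantMeasure (SLR d) (SLR d ⧸ Γ) ν]

lemma measurable_act : Measurable fun z : SLR d × (SLR d ⧸ Γ) => z.1 • z.2 :=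
  measurable_smul

lemma measurable_eval_snd {G : Type*} [MeasurableSpace G] :
    Measurable fun z : Fin (m + 1) × (Fin (m + 1) → G) => z.2 z.1 :=
  measurable_from_prod_countable_right fun j => measurable_pi_apply j

lemma measurable_joint_value {G : Type*} [MeasurableSpace G] :
    Measurable fun q : ((Fin m → ℝ) × (Fin (m + 1) → G)) × ℝ =>
      q.1.2 (label (Equiv.refl _) (simplexMap m q.1.1) q.2) := by
  have hxt : Measurable fun q : ((Fin m → ℝ) × (Fin (m + 1) → G)) × ℝ => (q.1.1, q.2) :=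
    (measurable_fst.comp measurable_fst).prodMk measurable_snd
  have hl := (measurable_joint_label (m := m)).comp hxt
  have h2 : Measurable fun q : ((Fin m → ℝ) × (Fin (m + 1) → G)) × ℝ => q.1.2 :=
    measurable_snd.comp measurable_fst
  have h3 := hl.prodMk h2
  have h4 := measurable_eval_snd.comp h3
  exact h4

lemma measurable_joint_skew (p : Equiv.Perm (Fin (m + 1))) :
    Measurable fun q : ((Fin m → ℝ) × (Fin (m + 1) → SLR d)) × (ℝ × (SLR d ⧸ Γ)) =>
      skewProduct Γ p q.1.1 q.1.2 q.2 := by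
  have hxt : Measurable fun q : ((Fin m → ℝ) × (Fin (m + 1) → SLR d)) × (ℝ × (SLR d ⧸ Γ)) =>
      (q.1.1, q.2.1) :=
    (measurable_fst.comp measurable_fst).prodMk (measurable_fst.comp measurable_snd)
  have hxgt : Measurable fun q : ((Fin m → ℝ) × (Fin (m + 1) → SLR d)) × (ℝ × (SLR d ⧸ Γ)) =>
      (q.1, q.2.1) :=
    measurable_fst.prodMk (measurable_fst.comp measurable_snd)
  have h1 := (measurable_joint_iet p).comp hxt
  have h2 := (measurable_joint_value (m := m) (G := SLR d)).comp hxgt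
  have h3 : Measurable fun q : ((Fin m → ℝ) × (Fin (m + 1) → SLR d)) × (ℝ × (SLR d ⧸ Γ)) =>
      q.2.2 := measurable_snd.comp measurable_snd
  have h4 := (measurable_act Γ).comp (h2.prodMk h3)
  exact h1.prodMk h4

lemma sum_simplex {x : Fin m → ℝ} : ∑ i, simplexMap m x i = 1 := sum_simplexMap x

lemma pos_simplex {x : Fin m → ℝ} (hx : x ∈ simplexCoord m) : ∀ j, 0 < simplexMap m x j := by
  intro j
  unfold simplexMap
  refine Fin.lastCases ?_ (fun i => ?_) j
  · simp only [Fin.snoc_last]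
    linarith [hx.2]
  · simp only [Fin.snoc_castSucc]
    exact hx.1 i

lemma measurePreserving_skewProduct (p : Equiv.Perm (Fin (m + 1))) {x : Fin m → ℝ}
    (hx : x ∈ simplexCoord m) (g : Fin (m + 1) → SLR d) :
    MeasurePreserving (skewProduct Γ p x g)
      ((volume.restrict (Ico (0 : ℝ) 1)).prod ν) ((volume.restrict (Ico (0 : ℝ) 1)).prod ν) := by
  have h1 := measurePreserving_iet (Equiv.refl _) p (pos_simplex hx)
  rw [sum_simplexMap] at h1
  have h2 : Measurable (Function.uncurry fun (t : ℝ) (y : SLR d ⧸ Γ) =>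
      g (label (Equiv.refl _) (simplexMap m x) t) • y) := by
    have h3 := (measurable_joint_value (m := m) (G := SLR d)).comp
      (measurable_const.prodMk measurable_fst :
        Measurable fun q : ℝ × (SLR d ⧸ Γ) => ((x, g), q.1))
    exact (measurable_act Γ).comp (h3.prodMk measurable_snd)
  refine MeasurePreserving.skew_product h1 h2 (Eventually.of_forall fun t => ?_)
  exact (measurePreserving_smul (g (label (Equiv.refl _) (simplexMap m x) t)) ν).map_eq

/-- Invariant functions of the family of skew products depend on the parameter only. -/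
lemma const_of_invariant_family (hd : 2 ≤ d) (hm : 1 ≤ m) (p : Equiv.Perm (Fin (m + 1)))
    (hp : IrredPerm p) (μ : Measure (SLR d)) [μ.IsHaarMeasure]
    (Φ : ((Fin m → ℝ) × (Fin (m + 1) → SLR d)) × (ℝ × (SLR d ⧸ Γ)) → ℝ) (hΦ : Measurable Φ)
    (hL2 : ∫⁻ q, ‖Φ q‖ₑ ^ (2 : ℝ) ∂(((volume.restrict (simplexCoord m)).prod
      (Measure.pi fun _ : Fin (m + 1) => μ)).prod ((volume.restrict (Ico (0 : ℝ) 1)).prod ν)) ≠ ⊤)
    (hinv : ∀ᵐ q ∂(((volume.restrict (simplexCoord m)).prod
      (Measure.pi fun _ : Fin (m + 1) => μ)).prod ((volume.restrict (Ico (0 : ℝ) 1)).prod ν)),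
      Φ (q.1, skewProduct Γ p q.1.1 q.1.2 q.2) = Φ q) :
    ∀ᵐ u ∂((volume.restrict (simplexCoord m)).prod (Measure.pi fun _ : Fin (m + 1) => μ)),
      ∃ κ : ℝ, ∀ᵐ z ∂((volume.restrict (Ico (0 : ℝ) 1)).prod ν), Φ (u, z) = κ := by
  have hpos : MeasurableSet {x : Fin m → ℝ | x ∈ simplexCoord m} := by
    have h1 : {x : Fin m → ℝ | x ∈ simplexCoord m}
        = (⋂ i, {x : Fin m → ℝ | 0 < x i}) ∩ {x | ∑ i, x i < 1} := by
      ext x
      simp [simplexCoord]
    rw [h1]
    exact (MeasurableSet.iInter fun i => measurableSet_lt measurable_const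
      (measurable_pi_apply i)).inter (measurableSet_lt
        (Finset.measurable_fun_sum _ fun i _ => measurable_pi_apply i) measurable_const)
  set P := Measure.pi fun _ : Fin (m + 1) => μ with hP
  set lam : Measure ℝ := volume.restrict (Ico (0 : ℝ) 1) with hlam
  set V : Measure (Fin m → ℝ) := volume.restrict (simplexCoord m) with hV
  -- measurable set version of the conclusion
  set K : (Fin m → ℝ) × (Fin (m + 1) → SLR d) → ℝ := fun u => ∫ z, Φ (u, z) ∂(lam.prod ν) with hK
  have : IsProbabilityMeasure lam := ⟨by rw [hlam, Measure.restrict_apply_univ]; simp⟩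
  have hKm : Measurable K := hΦ.stronglyMeasurable.integral_prod_right'.measurable
  have hset : MeasurableSet {q : ((Fin m → ℝ) × (Fin (m + 1) → SLR d)) × (ℝ × (SLR d ⧸ Γ)) |
      Φ q = K q.1} := measurableSet_eq_fun hΦ (hKm.comp measurable_fst)
  have hset2 : MeasurableSet {u : (Fin m → ℝ) × (Fin (m + 1) → SLR d) |
      ∀ᵐ z ∂(lam.prod ν), Φ (u, z) = K u} := by
    have h1 : Measurable fun u : (Fin m → ℝ) × (Fin (m + 1) → SLR d) =>
        (lam.prod ν) (Prod.mk u ⁻¹' {q : ((Fin m → ℝ) × (Fin (m + 1) → SLR d)) ×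
          (ℝ × (SLR d ⧸ Γ)) | Φ q = K q.1}ᶜ) := measurable_measure_prodMk_left hset.compl
    exact h1 (measurableSet_singleton 0)
  suffices h : ∀ᵐ u ∂(V.prod P), ∀ᵐ z ∂(lam.prod ν), Φ (u, z) = K u by
    filter_upwards [h] with u hu using ⟨K u, hu⟩
  rw [Measure.ae_prod_iff_ae_ae hset2]
  -- fix the lengths
  have hgood := aeGoodTowers m hm p hp
  have hmemx : ∀ᵐ x ∂V, x ∈ simplexCoord m := ae_restrict_mem hpos
  have hinvx := Measure.ae_ae_of_ae_prod (Measure.ae_ae_of_ae_prod hinv)
  have hnorm : Measurable fun q : ((Fin m → ℝ) × (Fin (m + 1) → SLR d)) × (ℝ × (SLR d ⧸ Γ)) =>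
      ‖Φ q‖ₑ ^ (2 : ℝ) := hΦ.enorm.pow_const _
  have hL2x : ∀ᵐ x ∂V, ∫⁻ g, (∫⁻ z, ‖Φ ((x, g), z)‖ₑ ^ (2 : ℝ) ∂(lam.prod ν)) ∂P < ⊤ := by
    have h1 : Measurable fun u : (Fin m → ℝ) × (Fin (m + 1) → SLR d) =>
        ∫⁻ z, ‖Φ (u, z)‖ₑ ^ (2 : ℝ) ∂(lam.prod ν) := hnorm.lintegral_prod_right'
    rw [lintegral_prod _ hnorm.aemeasurable, lintegral_prod _ h1.aemeasurable] at hL2
    exact ae_lt_top h1.lintegral_prod_right' hL2
  filter_upwards [hgood, hmemx, hinvx, hL2x] with x hx1 hx2 hx3 hx4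
  obtain ⟨c, hc, towers⟩ := hx1
  have hl := pos_simplex hx2
  set T : ℝ → ℝ := iet (Equiv.refl _) p (simplexMap m x) with hT
  set J : ℝ → Fin (m + 1) := label (Equiv.refl _) (simplexMap m x) with hJ
  have hmp : MeasurePreserving T lam lam := by
    have h1 := measurePreserving_iet (Equiv.refl _) p hl
    rwa [sum_simplexMap] at h1
  have hmaps : MapsTo T (Ico 0 1) (Ico 0 1) := by
    intro t ht
    have h1 := iet_mem_Ico (pt := Equiv.refl _) (pb := p) hl (x := t)
    rw [sum_simplexMap] at h1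
    exact h1 ht
  have hinj : InjOn T (Ico 0 1) := by
    have h1 := iet_injOn (pt := Equiv.refl _) (pb := p) hl
    rwa [sum_simplexMap] at h1
  have herg : Ergodic T lam := ergodic_of_towers hc hmp hinj towers
  -- the function with fixed lengths
  set Ψ : ((Fin (m + 1) → SLR d) × ℝ) × (SLR d ⧸ Γ) → ℝ :=
    fun q => Φ ((x, q.1.1), (q.1.2, q.2)) with hΨ
  have hre : Measurable fun q : ((Fin (m + 1) → SLR d) × ℝ) × (SLR d ⧸ Γ) =>
      (((x, q.1.1), (q.1.2, q.2)) :
        ((Fin m → ℝ) × (Fin (m + 1) → SLR d)) × (ℝ × (SLR d ⧸ Γ))) :=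
    (measurable_const.prodMk (measurable_fst.comp measurable_fst)).prodMk
      ((measurable_snd.comp measurable_fst).prodMk measurable_snd)
  have hΨm : Measurable Ψ := hΦ.comp hre
  have hΨL : ∫⁻ q, (∫⁻ y, ‖Ψ (q, y)‖ₑ ^ (2 : ℝ) ∂ν) ∂(P.prod lam) ≠ ⊤ := by
    have h1 : Measurable fun q : (Fin (m + 1) → SLR d) × ℝ => ∫⁻ y, ‖Ψ (q, y)‖ₑ ^ (2 : ℝ) ∂ν :=
      (hΨm.enorm.pow_const _).lintegral_prod_right'
    rw [lintegral_prod _ h1.aemeasurable]
    have h2 : ∀ g, ∫⁻ t, (∫⁻ y, ‖Ψ ((g, t), y)‖ₑ ^ (2 : ℝ) ∂ν) ∂lam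
        = ∫⁻ z, ‖Φ ((x, g), z)‖ₑ ^ (2 : ℝ) ∂(lam.prod ν) := by
      intro g
      have h3 : Measurable fun z : ℝ × (SLR d ⧸ Γ) => ‖Φ ((x, g), z)‖ₑ ^ (2 : ℝ) :=
        hnorm.comp measurable_prodMk_left
      rw [lintegral_prod _ h3.aemeasurable]
    simp_rw [h2]
    exact hx4.ne
  have hΨinv : ∀ᵐ g ∂P, ∀ᵐ t ∂lam, ∀ᵐ y ∂ν, Ψ ((g, T t), g (J t) • y) = Ψ ((g, t), y) := by
    filter_upwards [hx3] with g hg
    exact Measure.ae_ae_of_ae_prod hg
  have hfin := const_of_invariant Γ ν hd (by omega) hc towers hmaps hinj herg μ hΨm hΨL hΨinv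
  filter_upwards [hfin] with g hg
  obtain ⟨κ, hκ⟩ := hg
  have hsetκ : MeasurableSet {z : ℝ × (SLR d ⧸ Γ) | Φ ((x, g), z) = κ} :=
    measurableSet_eq_fun (hΦ.comp measurable_prodMk_left) measurable_const
  have h1 : ∀ᵐ z ∂(lam.prod ν), Φ ((x, g), z) = κ := by
    rw [Measure.ae_prod_iff_ae_ae hsetκ]
    exact hκ
  have h2 : K (x, g) = κ := by
    rw [hK]
    simp only
    rw [integral_congr_ae h1]
    simp
  rw [h2]
  exact h1

/-- Almost every skew product is ergodic. -/
theorem ae_ergodic_skewProduct (hd : 2 ≤ d) (hm : 1 ≤ m) (p : Equiv.Perm (Fin (m + 1)))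
    (hp : IrredPerm p) (μ : Measure (SLR d)) [μ.IsHaarMeasure] :
    ∀ᵐ u ∂((volume.restrict (simplexCoord m)).prod (Measure.pi fun _ : Fin (m + 1) => μ)),
      Ergodic (skewProduct Γ p u.1 u.2) ((volume.restrict (Ico (0 : ℝ) 1)).prod ν) := by
  classical
  have hpos : MeasurableSet {x : Fin m → ℝ | x ∈ simplexCoord m} := by
    have h1 : {x : Fin m → ℝ | x ∈ simplexCoord m}
        = (⋂ i, {x : Fin m → ℝ | 0 < x i}) ∩ {x | ∑ i, x i < 1} := by
      ext x
      simp [simplexCoord]
    rw [h1]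
    exact (MeasurableSet.iInter fun i => measurableSet_lt measurable_const
      (measurable_pi_apply i)).inter (measurableSet_lt
        (Finset.measurable_fun_sum _ fun i _ => measurable_pi_apply i) measurable_const)
  set P := Measure.pi fun _ : Fin (m + 1) => μ with hP
  set lam : Measure ℝ := volume.restrict (Ico (0 : ℝ) 1) with hlam
  set V : Measure (Fin m → ℝ) := volume.restrict (simplexCoord m) with hV
  have : IsProbabilityMeasure lam := ⟨by rw [hlam, Measure.restrict_apply_univ]; simp⟩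
  set S : ((Fin m → ℝ) × (Fin (m + 1) → SLR d)) × (ℝ × (SLR d ⧸ Γ)) → ℝ × (SLR d ⧸ Γ) :=
    fun q => if q.1.1 ∈ simplexCoord m then skewProduct Γ p q.1.1 q.1.2 q.2 else q.2 with hS
  have hSm : Measurable S :=
    Measurable.ite ((measurable_fst.comp measurable_fst) hpos) (measurable_joint_skew Γ p)
      measurable_snd
  have hSmp : ∀ u, MeasurePreserving (fun z => S (u, z)) (lam.prod ν) (lam.prod ν) := by
    intro u
    by_cases hu : u.1 ∈ simplexCoord m
    · have h1 : (fun z => S (u, z)) = skewProduct Γ p u.1 u.2 := by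
        funext z
        simp only [hS, hu, if_true]
      rw [h1]
      exact measurePreserving_skewProduct Γ ν p hu u.2
    · have h1 : (fun z => S (u, z)) = id := by
        funext z
        simp only [hS, hu, if_false, id]
      rw [h1]
      exact MeasurePreserving.id _
  have hmemu : ∀ᵐ u ∂(V.prod P), u.1 ∈ simplexCoord m := by
    have h1 : ∀ᵐ x ∂V, x ∈ simplexCoord m := ae_restrict_mem hpos
    exact Measure.quasiMeasurePreserving_fst.ae h1
  have hmemq : ∀ᵐ q ∂((V.prod P).prod (lam.prod ν)), q.1.1 ∈ simplexCoord m :=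
    Measure.quasiMeasurePreserving_fst.ae hmemu
  have hmain := ergodic_of_invariant (V.prod P) (lam.prod ν) S hSm hSmp (by
    intro Φ hΦ hmem hinv
    have hL2 : ∫⁻ q, ‖Φ q‖ₑ ^ (2 : ℝ) ∂((V.prod P).prod (lam.prod ν)) ≠ ⊤ := by
      have h1 := hmem.2
      rw [eLpNorm_lt_top_iff_lintegral_rpow_enorm_lt_top (by norm_num) (by norm_num)] at h1
      simpa using h1.ne
    have hinv' : ∀ᵐ q ∂((V.prod P).prod (lam.prod ν)),
        Φ (q.1, skewProduct Γ p q.1.1 q.1.2 q.2) = Φ q := by
      filter_upwards [hinv, hmemq] with q h1 h2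
      simp only [hS, h2, if_true] at h1
      exact h1
    have h3 := const_of_invariant_family Γ ν hd hm p hp μ Φ hΦ hL2 hinv'
    set K : (Fin m → ℝ) × (Fin (m + 1) → SLR d) → ℝ := fun u => ∫ z, Φ (u, z) ∂(lam.prod ν)
      with hK
    have hKm : Measurable K := hΦ.stronglyMeasurable.integral_prod_right'.measurable
    refine ⟨K, hKm, ?_⟩
    have hset : MeasurableSet {q : ((Fin m → ℝ) × (Fin (m + 1) → SLR d)) × (ℝ × (SLR d ⧸ Γ)) |
        Φ q = K q.1} := measurableSet_eq_fun hΦ (hKm.comp measurable_fst)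
    rw [Measure.ae_prod_iff_ae_ae hset]
    filter_upwards [h3] with u hu
    obtain ⟨κ, hκ⟩ := hu
    have h4 : K u = κ := by
      rw [hK]
      simp only
      rw [integral_congr_ae hκ]
      simp
    rw [h4]
    exact hκ)
  filter_upwards [hmain, hmemu] with u h1 h2
  have h3 : (fun z => S (u, z)) = skewProduct Γ p u.1 u.2 := by
    funext z
    simp only [hS, h2, if_true]
  rwa [h3] at h1

end Main

end SkewHM
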