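import Pool.Agent.Lib.Helper64.Skew.HoweMoore
import Pool.Agent.Lib.Helper20.Skew.Null

/-!
# Tuples which almost fix a vector of a compact set
-/

open MeasureTheory Set Filter Topology

set_option linter.unusedSectionVars false

namespace SkewHM

variable {H : Type*} [NormedAddCommGroup H] [InnerProductSpace ℝ H] {d : ℕ}
variable {π : SLR d →* (H ≃ₗᵢ[ℝ] H)}

/-- Tuples which almost fix some vector of `Q`. -/
def nb (π : SLR d →* (H ≃ₗᵢ[ℝ] H)) (Q : Set H) (n : ℕ) (η : ℝ) : Set (Fin n → SLR d) :=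
  {g | ∃ v ∈ Q, ∀ j, ‖π (g j) v - v‖ ≤ η}

lemma continuous_rep (hπ : ∀ v, Continuous fun g => π g v) :
    Continuous fun p : SLR d × H => π p.1 p.2 := by
  rw [continuous_iff_continuousAt]
  rintro ⟨g, v⟩
  exact tendsto_rep hπ (continuous_fst.tendsto (g, v)) (continuous_snd.tendsto (g, v))

lemma isClosed_nb (hπ : ∀ v, Continuous fun g => π g v) {Q : Set H} (hQ : IsCompact Q) (n : ℕ)
    (η : ℝ) : IsClosed (nb π Q n η) := by
  have : CompactSpace Q := isCompact_iff_compactSpace.mp hQ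
  have h1 : nb π Q n η = Prod.fst ''
      {p : (Fin n → SLR d) × Q | ∀ j, ‖π (p.1 j) (p.2 : H) - (p.2 : H)‖ ≤ η} := by
    ext g
    constructor
    · rintro ⟨v, hv, h⟩
      exact ⟨(g, ⟨v, hv⟩), h, rfl⟩
    · rintro ⟨⟨g', v⟩, h, rfl⟩
      exact ⟨v, v.2, h⟩
  rw [h1]
  apply isClosedMap_fst_of_compactSpace
  rw [Set.ofPred_forall]
  refine isClosed_iInter fun j => isClosed_le ?_ continuous_const
  have h2 : Continuous fun p : (Fin n → SLR d) × Q => (p.2 : H) :=
    continuous_subtype_val.comp continuous_snd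
  have h3 : Continuous fun p : (Fin n → SLR d) × Q => (p.1 j, (p.2 : H)) :=
    ((continuous_apply j).comp continuous_fst).prodMk h2
  exact (((continuous_rep hπ).comp h3).sub h2).norm

lemma nb_mono {Q : Set H} {n : ℕ} {η η' : ℝ} (h : η ≤ η') : nb π Q n η ⊆ nb π Q n η' := by
  rintro g ⟨v, hv, hg⟩
  exact ⟨v, hv, fun j => (hg j).trans h⟩

lemma nb_inter (hπ : ∀ v, Continuous fun g => π g v) {Q : Set H} (hQ : IsCompact Q) (n : ℕ)
    {g : Fin n → SLR d} (hg : ∀ m : ℕ, g ∈ nb π Q n (1 / ((m : ℝ) + 1))) :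
    ∃ v ∈ Q, ∀ j, π (g j) v = v := by
  choose w hwQ hw using hg
  obtain ⟨v₀, hv₀, hlim⟩ := hQ.ultrafilter_le_nhds' ((hyperfilter ℕ).map w)
    (Filter.Eventually.of_forall hwQ : ∀ᶠ n in (hyperfilter ℕ : Filter ℕ), w n ∈ Q)
  have hwt : Tendsto w (hyperfilter ℕ) (𝓝 v₀) := hlim
  have hhyp : (hyperfilter ℕ : Filter ℕ) ≤ atTop := by
    rw [← Nat.cofinite_eq_atTop]
    exact hyperfilter_le_cofinite
  refine ⟨v₀, hv₀, fun j => ?_⟩
  have h1 : Tendsto (fun k => ‖π (g j) (w k) - w k‖) (hyperfilter ℕ) (𝓝 ‖π (g j) v₀ - v₀‖) := by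
    have hc : Continuous fun v => ‖π (g j) v - v‖ :=
      ((π (g j)).continuous.sub continuous_id).norm
    exact (hc.tendsto v₀).comp hwt
  have h2 : Tendsto (fun k => ‖π (g j) (w k) - w k‖) (hyperfilter ℕ) (𝓝 0) := by
    refine squeeze_zero (fun _ => norm_nonneg _) (fun k => hw k j) ?_
    exact tendsto_one_div_add_atTop_nhds_zero_nat.mono_left hhyp
  exact sub_eq_zero.mp (norm_eq_zero.mp (tendsto_nhds_unique h1 h2))

lemma isCompact_entries (B : ℝ) : IsCompact {h : SLR d | ∀ i j, |h.1 i j| ≤ B} := by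
  have h1 : IsCompact {M : Matrix (Fin d) (Fin d) ℝ | ∀ i j, |M i j| ≤ B} := by
    have h2 : {M : Matrix (Fin d) (Fin d) ℝ | ∀ i j, |M i j| ≤ B}
        = Set.pi univ fun _ => Set.pi univ fun _ => Icc (-B) B := by
      ext M
      constructor
      · intro hM i _ j _
        exact abs_le.mp (hM i j)
      · intro hM i j
        exact abs_le.mpr (hM i (mem_univ i) j (mem_univ j))
    rw [h2]
    exact isCompact_univ_pi fun _ => isCompact_univ_pi fun _ => isCompact_Icc
  exact (Matrix.SpecialLinearGroup.isClosedEmbedding_val (n := Fin d)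
    (R := ℝ)).isCompact_preimage h1

variable [MeasurableSpace (SLR d)] [BorelSpace (SLR d)]

theorem tendsto_measure_nb {n : ℕ} (hd : 2 ≤ d) (hn : 2 ≤ n)
    (μ : Measure (SLR d)) [μ.IsHaarMeasure]
    (hπ : ∀ v, Continuous fun g => π g v) {Q : Set H} (hQ : IsCompact Q)
    (hnf : ∀ v ∈ Q, ¬ IsFixed π v) :
    Tendsto (fun m : ℕ => Measure.pi (fun _ : Fin n => μ) (nb π Q n (1 / ((m : ℝ) + 1))))
      atTop (𝓝 0) := by
  have : Nontrivial (Fin d) := Fin.nontrivial_iff_two_le.mpr hd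
  have hanti : Antitone fun m : ℕ => nb π Q n (1 / ((m : ℝ) + 1)) := by
    intro a b hab
    apply nb_mono
    have : (a : ℝ) ≤ b := by exact_mod_cast hab
    gcongr
  have h0 : Measure.pi (fun _ : Fin n => μ) (⋂ m : ℕ, nb π Q n (1 / ((m : ℝ) + 1))) = 0 := by
    refine measure_mono_null ?_ (null_bounded (μ := μ) hd hn)
    intro g hg
    rw [mem_iInter] at hg
    obtain ⟨v, hv, hfix⟩ := nb_inter hπ hQ n hg
    obtain ⟨ε, hε, B, hB⟩ := compact_returns hπ (isCompact_singleton (x := v)) (by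
      intro w hw
      rw [mem_singleton_iff] at hw
      rw [hw]
      exact hnf v hv)
    refine ⟨B, fun h hh i j => ?_⟩
    have h1 : π h v = v := by
      induction hh using Subgroup.closure_induction with
      | mem x hx =>
        obtain ⟨k, rfl⟩ := hx
        exact hfix k
      | one => exact rep_one v
      | mul x y _ _ hx hy => rw [rep_mul, hy, hx]
      | inv x _ hx => exact inv_fixed hx
    refine hB h v (mem_singleton v) ?_ i j
    rw [h1, sub_self, norm_zero]
    exact hε.le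
  rw [← h0]
  refine tendsto_measure_iInter_atTop (fun m => (isClosed_nb hπ hQ n _).measurableSet.nullMeasurableSet)
    hanti ?_
  obtain ⟨ε, hε, B, hB⟩ := compact_returns hπ hQ hnf
  obtain ⟨m, hm⟩ := exists_nat_one_div_lt hε
  refine ⟨m, ?_⟩
  have hsub : nb π Q n (1 / ((m : ℝ) + 1))
      ⊆ Set.pi univ fun _ => {h : SLR d | ∀ i j, |h.1 i j| ≤ B} := by
    rintro g ⟨v, hv, hg⟩ j -
    exact hB (g j) v hv ((hg j).trans hm.le)
  refine ne_top_of_le_ne_top ?_ (measure_mono hsub)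
  rw [Measure.pi_pi]
  exact ENNReal.prod_ne_top fun _ _ => (isCompact_entries B).measure_ne_top

end SkewHM
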