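import Pool.Agent.Lib.Helper64.Skew.Osc
import Pool.Agent.Lib.Helper64.Skew.Nbhd

/-!
# The main estimate
-/

open MeasureTheory Set Filter Topology

set_option linter.unusedSectionVars false

namespace SkewHM

open SkewIET

variable {n d : ℕ} {T : ℝ → ℝ} {J : ℝ → Fin n} {c ε : ℝ}

variable {H : Type*} [NormedAddCommGroup H] [InnerProductSpace ℝ H]
  [MeasurableSpace H] [BorelSpace H] [SecondCountableTopology H]
variable {π : SLR d →* (H ≃ₗᵢ[ℝ] H)}

lemma close_le {τ : GoodTower T J c ε} (F : Floors T J c ε τ) {g : Fin n → SLR d} {f : ℝ → H}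
    (hok : ∀ᵐ x ∂(volume.restrict (Ico (0 : ℝ) 1)), OrbitOK π T J g f x) (hf : Measurable f)
    {k : ℕ} (hk : k < τ.N) (j : Fin n) (v : H) :
    ENNReal.ofReal (c * τ.len) * ‖π (retWord F k g j) v - v‖ₑ
      ≤ 2 * ∫⁻ x in Ico 0 τ.len, ‖f (x + F.t k) - v‖ₑ := by
  have hsub : Ico (τ.start j) (τ.start j + τ.width j) ⊆ Ico (0 : ℝ) 1 :=
    (τ.piece_sub j).trans (Ico_subset_Ico_right τ.len_le_one)
  have hok' : ∀ᵐ x ∂(volume.restrict (Ico (τ.start j) (τ.start j + τ.width j))),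
      OrbitOK π T J g f x := ae_restrict_of_ae_restrict_of_subset hsub hok
  have hmem : ∀ᵐ x ∂(volume.restrict (Ico (τ.start j) (τ.start j + τ.width j))),
      x ∈ Ico (τ.start j) (τ.start j + τ.width j) := ae_restrict_mem measurableSet_Ico
  have hpt : ∀ᵐ x ∂(volume.restrict (Ico (τ.start j) (τ.start j + τ.width j))),
      ‖π (retWord F k g j) v - v‖ₑ
        ≤ ‖f (x + F.t k) - v‖ₑ + ‖f (x + F.s j + F.t k) - v‖ₑ := by
    filter_upwards [hok', hmem] with x hx hxm
    have h1 := floor_cocycle F hxm hx hk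
    have h2 : π (retWord F k g j) v - v
        = (π (retWord F k g j) v - π (retWord F k g j) (f (x + F.t k)))
          + (f (x + F.s j + F.t k) - v) := by
      rw [h1]; abel
    rw [h2]
    refine (enorm_add_le _ _).trans ?_
    gcongr
    rw [← ofReal_norm, ← ofReal_norm, rep_norm_sub, norm_sub_rev]
  have hu : Measurable fun x : ℝ => ‖f (x + F.t k) - v‖ₑ :=
    ((hf.comp (measurable_id.add_const _)).sub_const v).enorm
  calc ENNReal.ofReal (c * τ.len) * ‖π (retWord F k g j) v - v‖ₑ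
      ≤ ENNReal.ofReal (τ.width j) * ‖π (retWord F k g j) v - v‖ₑ := by
        gcongr
        exact τ.width_ge j
    _ = ∫⁻ _ in Ico (τ.start j) (τ.start j + τ.width j), ‖π (retWord F k g j) v - v‖ₑ := by
        rw [setLIntegral_const, Real.volume_Ico, add_sub_cancel_left, mul_comm]
    _ ≤ ∫⁻ x in Ico (τ.start j) (τ.start j + τ.width j),
          (‖f (x + F.t k) - v‖ₑ + ‖f (x + F.s j + F.t k) - v‖ₑ) := lintegral_mono_ae hpt
    _ = (∫⁻ x in Ico (τ.start j) (τ.start j + τ.width j), ‖f (x + F.t k) - v‖ₑ)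
        + ∫⁻ x in Ico (τ.start j) (τ.start j + τ.width j), ‖f (x + F.s j + F.t k) - v‖ₑ :=
        lintegral_add_left hu _
    _ ≤ (∫⁻ x in Ico 0 τ.len, ‖f (x + F.t k) - v‖ₑ)
        + ∫⁻ x in Ico 0 τ.len, ‖f (x + F.t k) - v‖ₑ := by
        refine add_le_add (lintegral_mono_set (τ.piece_sub j)) ?_
        rw [lint_translate (fun x => ‖f (x + F.t k) - v‖ₑ)]
        refine lintegral_mono_set ?_
        intro y hy
        have h3 := F.s_mem j (y - F.s j) ⟨by linarith [hy.1], by linarith [hy.2]⟩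
        rwa [sub_add_cancel] at h3
    _ = _ := by rw [two_mul]

lemma measurable_osc_inner {f : ℝ → H} (hf : Measurable f) (t ℓ : ℝ) :
    Measurable fun z => ∫⁻ x in Ico 0 ℓ, ‖f (x + t) - f (z + t)‖ₑ := by
  have h1 : Measurable fun p : ℝ × ℝ => ‖f (p.2 + t) - f (p.1 + t)‖ₑ := by
    have h2 : Measurable fun p : ℝ × ℝ => f (p.2 + t) := hf.comp (measurable_snd.add_const _)
    have h3 : Measurable fun p : ℝ × ℝ => f (p.1 + t) := hf.comp (measurable_fst.add_const _)
    exact (h2.sub h3).enorm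
  exact h1.lintegral_prod_right'

lemma point_est (hc : 0 < c) {η : ℝ} (hη : 0 < η)
    {τ : GoodTower T J c ε} (F : Floors T J c ε τ) {g : Fin n → SLR d}
    {f : ℝ → H} (hok : ∀ᵐ x ∂(volume.restrict (Ico (0 : ℝ) 1)), OrbitOK π T J g f x)
    (hf : Measurable f) {Q : Set H} {k : ℕ} (hk : k < τ.N) :
    (volume.restrict (Ico 0 τ.len)) {z | f (z + F.t k) ∈ Q}
      ≤ (retWord F k ⁻¹' nb π Q n η).indicator (fun _ => ENNReal.ofReal τ.len) g
        + ENNReal.ofReal (2 / (c * η)) * ((ENNReal.ofReal τ.len)⁻¹ *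
          ∫⁻ x in Ico 0 τ.len, ∫⁻ z in Ico 0 τ.len, ‖f (x + F.t k) - f (z + F.t k)‖ₑ) := by
  set L := ENNReal.ofReal τ.len with hL
  have hL0 : L ≠ 0 := len_ne
  have hLt : L ≠ ⊤ := ENNReal.ofReal_ne_top
  by_cases hmem : g ∈ retWord F k ⁻¹' nb π Q n η
  · rw [indicator_of_mem hmem]
    refine le_add_right ?_
    calc (volume.restrict (Ico 0 τ.len)) {z | f (z + F.t k) ∈ Q}
        ≤ (volume.restrict (Ico 0 τ.len)) univ := measure_mono (subset_univ _)
      _ = L := by rw [Measure.restrict_apply_univ, Real.volume_Ico, sub_zero]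
  · rw [indicator_of_notMem hmem, zero_add]
    -- symmetric form of the double integral
    have hsymm : ∫⁻ x in Ico 0 τ.len, ∫⁻ z in Ico 0 τ.len, ‖f (x + F.t k) - f (z + F.t k)‖ₑ
        = ∫⁻ z in Ico 0 τ.len, ∫⁻ x in Ico 0 τ.len, ‖f (x + F.t k) - f (z + F.t k)‖ₑ := by
      refine lintegral_congr fun x => lintegral_congr fun z => ?_
      rw [← enorm_neg, neg_sub]
    rw [hsymm]
    set φ : ℝ → ENNReal := fun z => ∫⁻ x in Ico 0 τ.len, ‖f (x + F.t k) - f (z + F.t k)‖ₑ with hφ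
    have hφm : Measurable φ := measurable_osc_inner hf _ _
    -- pointwise lower bound
    have hlow : {z | f (z + F.t k) ∈ Q} ⊆
        {z | 1 ≤ ENNReal.ofReal (2 / (c * η)) * (L⁻¹ * φ z)} := by
      intro z hz
      have h1 : ¬ ∀ j, ‖π (retWord F k g j) (f (z + F.t k)) - f (z + F.t k)‖ ≤ η := by
        intro hall
        exact hmem ⟨f (z + F.t k), hz, hall⟩
      push Not at h1
      obtain ⟨j, hj⟩ := h1
      have h2 := close_le F hok hf hk j (f (z + F.t k))
      have h3 : ENNReal.ofReal η ≤ ‖π (retWord F k g j) (f (z + F.t k)) - f (z + F.t k)‖ₑ := by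
        rw [← ofReal_norm]
        exact ENNReal.ofReal_le_ofReal hj.le
      have h4 : ENNReal.ofReal (c * τ.len) * ENNReal.ofReal η ≤ 2 * φ z :=
        le_trans (by gcongr) h2
      change 1 ≤ ENNReal.ofReal (2 / (c * η)) * (L⁻¹ * φ z)
      have h5 : ENNReal.ofReal (c * τ.len) = ENNReal.ofReal c * L := ENNReal.ofReal_mul hc.le
      rw [h5] at h4
      have hcη : 0 < c * η := mul_pos hc hη
      have h6 : ENNReal.ofReal (2 / (c * η)) = 2 * (ENNReal.ofReal c * ENNReal.ofReal η)⁻¹ := by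
        rw [ENNReal.ofReal_div_of_pos hcη, ENNReal.ofReal_mul hc.le, ENNReal.div_eq_inv_mul,
          mul_comm]
        norm_num
      rw [h6]
      set C := ENNReal.ofReal c * ENNReal.ofReal η with hC
      have hC0 : C ≠ 0 := by
        rw [hC, ← ENNReal.ofReal_mul hc.le]
        simpa using hcη
      have hCt : C ≠ ⊤ := ENNReal.mul_ne_top ENNReal.ofReal_ne_top ENNReal.ofReal_ne_top
      calc (1 : ENNReal) = C⁻¹ * L⁻¹ * (C * L) := by
            rw [mul_mul_mul_comm, ENNReal.inv_mul_cancel hC0 hCt, ENNReal.inv_mul_cancel hL0 hLt,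
              one_mul]
        _ = C⁻¹ * L⁻¹ * (ENNReal.ofReal c * L * ENNReal.ofReal η) := by rw [hC]; ring
        _ ≤ C⁻¹ * L⁻¹ * (2 * φ z) := by gcongr
        _ = 2 * C⁻¹ * (L⁻¹ * φ z) := by ring
    calc (volume.restrict (Ico 0 τ.len)) {z | f (z + F.t k) ∈ Q}
        ≤ (volume.restrict (Ico 0 τ.len))
          {z | 1 ≤ ENNReal.ofReal (2 / (c * η)) * (L⁻¹ * φ z)} := measure_mono hlow
      _ ≤ ∫⁻ z in Ico 0 τ.len, ENNReal.ofReal (2 / (c * η)) * (L⁻¹ * φ z) := by
          have := mul_meas_ge_le_lintegral (μ := volume.restrict (Ico 0 τ.len))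
            ((hφm.const_mul L⁻¹).const_mul (ENNReal.ofReal (2 / (c * η)))) 1
          rwa [one_mul] at this
      _ = _ := by
          rw [lintegral_const_mul _ (hφm.const_mul _), lintegral_const_mul _ hφm]

lemma sum_est (hc : 0 < c) {η : ℝ} (hη : 0 < η)
    {τ : GoodTower T J c ε} (F : Floors T J c ε τ) {g : Fin n → SLR d}
    {f : ℝ → H} (hok : ∀ᵐ x ∂(volume.restrict (Ico (0 : ℝ) 1)), OrbitOK π T J g f x)
    (hf : Measurable f) {Q : Set H} (hQ : IsClosed Q) :
    ENNReal.ofReal c ≤ (∑ k ∈ Finset.range τ.N,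
        (retWord F k ⁻¹' nb π Q n η).indicator (fun _ => ENNReal.ofReal τ.len) g)
      + ENNReal.ofReal (2 / (c * η)) * osc F f
      + (volume.restrict (Ico 0 1)) {x | f x ∉ Q} := by
  set L := ENNReal.ofReal τ.len with hL
  have h1 : ENNReal.ofReal c ≤ ∑ _k ∈ Finset.range τ.N, L := by
    rw [Finset.sum_const, Finset.card_range, nsmul_eq_mul]
    calc ENNReal.ofReal c ≤ ENNReal.ofReal (τ.N * τ.len) := ENNReal.ofReal_le_ofReal τ.N_len
      _ = τ.N * L := by
          rw [ENNReal.ofReal_mul (by positivity), ENNReal.ofReal_natCast]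
  have hQm : MeasurableSet {x : ℝ | f x ∉ Q} := hf hQ.measurableSet.compl
  have h2 : ∀ k, L ≤ (volume.restrict (Ico 0 τ.len)) {z | f (z + F.t k) ∈ Q}
      + ∫⁻ z in Ico 0 τ.len, ({x : ℝ | f x ∉ Q}.indicator 1) (z + F.t k) := by
    intro k
    have h3 : ∫⁻ z in Ico 0 τ.len, ({x : ℝ | f x ∉ Q}.indicator 1) (z + F.t k)
        = (volume.restrict (Ico 0 τ.len)) {z | f (z + F.t k) ∈ Q}ᶜ := by
      have h4 : MeasurableSet ({z | f (z + F.t k) ∈ Q}ᶜ) :=
        ((hf.comp (measurable_id.add_const _)) hQ.measurableSet).compl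
      rw [← lintegral_indicator_one h4]
      rfl
    rw [h3]
    calc L = (volume.restrict (Ico 0 τ.len)) univ := by
          rw [Measure.restrict_apply_univ, Real.volume_Ico, sub_zero]
      _ ≤ _ := by
          rw [← union_compl_self {z | f (z + F.t k) ∈ Q}]
          exact measure_union_le _ _
  calc ENNReal.ofReal c ≤ ∑ _k ∈ Finset.range τ.N, L := h1
    _ ≤ ∑ k ∈ Finset.range τ.N, (((retWord F k ⁻¹' nb π Q n η).indicator (fun _ => L) g
        + ENNReal.ofReal (2 / (c * η)) * (L⁻¹ *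
          ∫⁻ x in Ico 0 τ.len, ∫⁻ z in Ico 0 τ.len, ‖f (x + F.t k) - f (z + F.t k)‖ₑ))
        + ∫⁻ z in Ico 0 τ.len, ({x : ℝ | f x ∉ Q}.indicator 1) (z + F.t k)) := by
        refine Finset.sum_le_sum fun k hk => (h2 k).trans ?_
        gcongr
        exact point_est hc hη F hok hf (Finset.mem_range.mp hk)
    _ = (∑ k ∈ Finset.range τ.N, (retWord F k ⁻¹' nb π Q n η).indicator (fun _ => L) g)
        + ENNReal.ofReal (2 / (c * η)) * osc F f
        + ∑ k ∈ Finset.range τ.N,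
          ∫⁻ z in Ico 0 τ.len, ({x : ℝ | f x ∉ Q}.indicator 1) (z + F.t k) := by
        rw [Finset.sum_add_distrib, Finset.sum_add_distrib, osc, Finset.mul_sum]
    _ ≤ _ := by
        gcongr
        refine (sum_floors_le F _).trans ?_
        rw [lintegral_indicator_one hQm]

end SkewHM
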