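import Pool.Agent.Lib.Helper64.Skew.Estimate

/-!
# Equivariant families of vectors over an interval exchange are fixed
-/

open MeasureTheory Set Filter Topology

set_option linter.unusedSectionVars false

namespace SkewHM

open SkewIET

variable {n d : ℕ} {T : ℝ → ℝ} {J : ℝ → Fin n} {c ε : ℝ}

variable {H : Type*} [NormedAddCommGroup H] [InnerProductSpace ℝ H]
  [MeasurableSpace H] [BorelSpace H] [SecondCountableTopology H]
variable {π : SLR d →* (H ≃ₗᵢ[ℝ] H)}
variable [MeasurableSpace (SLR d)] [BorelSpace (SLR d)]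

lemma isClosed_fixed : IsClosed {v : H | IsFixed π v} := by
  have : {v : H | IsFixed π v} = ⋂ g : SLR d, {v | π g v = v} := by
    ext v
    simp [IsFixed]
  rw [this]
  exact isClosed_iInter fun g => isClosed_eq (π g).continuous continuous_id

lemma isFixed_rep_iff (g : SLR d) (v : H) : IsFixed π (π g v) ↔ IsFixed π v := by
  constructor
  · intro h
    have h1 : π g v = v := by
      have := h g⁻¹
      rw [rep_inv_self] at this
      exact this.symm
    rwa [h1] at h
  · intro h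
    rw [h g]
    exact h

lemma measurable_osc {τ : GoodTower T J c ε} (F : Floors T J c ε τ)
    {Φ : (Fin n → SLR d) × ℝ → H} (hΦ : Measurable Φ) :
    Measurable fun g => osc F (fun x => Φ (g, x)) := by
  unfold osc
  refine Finset.measurable_sum _ fun k _ => Measurable.const_mul ?_ _
  have h1 : Measurable fun p : ((Fin n → SLR d) × ℝ) × ℝ =>
      ‖Φ (p.1.1, p.1.2 + F.t k) - Φ (p.1.1, p.2 + F.t k)‖ₑ := by
    have h2 : Measurable fun p : ((Fin n → SLR d) × ℝ) × ℝ => Φ (p.1.1, p.1.2 + F.t k) :=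
      hΦ.comp ((measurable_fst.comp measurable_fst).prodMk
        ((measurable_snd.comp measurable_fst).add_const _))
    have h3 : Measurable fun p : ((Fin n → SLR d) × ℝ) × ℝ => Φ (p.1.1, p.2 + F.t k) :=
      hΦ.comp ((measurable_fst.comp measurable_fst).prodMk (measurable_snd.add_const _))
    exact (h2.sub h3).enorm
  exact (h1.lintegral_prod_right').lintegral_prod_right'

/-- the integrated estimate -/
lemma integrated_est (hc : 0 < c) {η : ℝ} (hη : 0 < η)
    (μ : Measure (SLR d)) [μ.IsHaarMeasure] (hπ : ∀ v, Continuous fun g => π g v)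
    {τ : GoodTower T J c ε} (F : Floors T J c ε τ)
    {Φ : (Fin n → SLR d) × ℝ → H} (hΦ : Measurable Φ) (K : Set (Fin n → SLR d))
    (hok : ∀ᵐ g ∂((Measure.pi fun _ : Fin n => μ).restrict K),
      ∀ᵐ x ∂(volume.restrict (Ico (0 : ℝ) 1)), OrbitOK π T J g (fun x => Φ (g, x)) x)
    {Q : Set H} (hQ : IsCompact Q) :
    ENNReal.ofReal c * (Measure.pi fun _ : Fin n => μ) K
      ≤ (Measure.pi fun _ : Fin n => μ) (nb π Q n η)
        + ENNReal.ofReal (2 / (c * η)) *
          (∫⁻ g in K, osc F (fun x => Φ (g, x)) ∂(Measure.pi fun _ : Fin n => μ))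
        + ∫⁻ g in K, (volume.restrict (Ico 0 1)) {x | Φ (g, x) ∉ Q}
          ∂(Measure.pi fun _ : Fin n => μ) := by
  set P := Measure.pi fun _ : Fin n => μ with hP
  set L := ENNReal.ofReal τ.len with hL
  have hnbm : MeasurableSet (nb π Q n η) := (isClosed_nb hπ hQ n η).measurableSet
  have hmp : ∀ k, MeasurePreserving (retWord F k) P P := fun k =>
    measurePreserving_word (μ := μ) τ.W τ.nielsen (F.pre k)
  have hind : ∀ k, Measurable fun g => (retWord F k ⁻¹' nb π Q n η).indicator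
      (fun _ => L) g := fun k =>
    measurable_const.indicator ((hmp k).measurable hnbm)
  have hsum : Measurable fun g => ∑ k ∈ Finset.range τ.N,
      (retWord F k ⁻¹' nb π Q n η).indicator (fun _ => L) g :=
    Finset.measurable_sum _ fun k _ => hind k
  calc ENNReal.ofReal c * P K = ∫⁻ _ in K, ENNReal.ofReal c ∂P := by
        rw [setLIntegral_const]
    _ ≤ ∫⁻ g in K, ((∑ k ∈ Finset.range τ.N,
          (retWord F k ⁻¹' nb π Q n η).indicator (fun _ => L) g)
        + ENNReal.ofReal (2 / (c * η)) * osc F (fun x => Φ (g, x))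
        + (volume.restrict (Ico 0 1)) {x | Φ (g, x) ∉ Q}) ∂P := by
        refine lintegral_mono_ae ?_
        filter_upwards [hok] with g hg
        exact sum_est hc hη F hg (hΦ.comp measurable_prodMk_left) hQ.isClosed
    _ = (∫⁻ g in K, ∑ k ∈ Finset.range τ.N,
          (retWord F k ⁻¹' nb π Q n η).indicator (fun _ => L) g ∂P)
        + ENNReal.ofReal (2 / (c * η)) * (∫⁻ g in K, osc F (fun x => Φ (g, x)) ∂P)
        + ∫⁻ g in K, (volume.restrict (Ico 0 1)) {x | Φ (g, x) ∉ Q} ∂P := by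
        have hom := measurable_osc F hΦ
        have hs2 : Measurable fun g => (∑ k ∈ Finset.range τ.N,
            (retWord F k ⁻¹' nb π Q n η).indicator (fun _ => L) g)
            + ENNReal.ofReal (2 / (c * η)) * osc F (fun x => Φ (g, x)) :=
          hsum.add (hom.const_mul _)
        rw [lintegral_add_left hs2, lintegral_add_left hsum, lintegral_const_mul _ hom]
    _ ≤ _ := by
        gcongr
        calc ∫⁻ g in K, ∑ k ∈ Finset.range τ.N,
              (retWord F k ⁻¹' nb π Q n η).indicator (fun _ => L) g ∂P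
            ≤ ∫⁻ g, ∑ k ∈ Finset.range τ.N,
              (retWord F k ⁻¹' nb π Q n η).indicator (fun _ => L) g ∂P :=
              setLIntegral_le_lintegral _ _
          _ = ∑ k ∈ Finset.range τ.N, L * P (nb π Q n η) := by
              rw [lintegral_finsetSum _ fun k _ => hind k]
              refine Finset.sum_congr rfl fun k _ => ?_
              rw [lintegral_indicator_const ((hmp k).measurable hnbm),
                (hmp k).measure_preimage hnbm.nullMeasurableSet]
          _ = (τ.N * L) * P (nb π Q n η) := by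
              rw [Finset.sum_const, Finset.card_range, nsmul_eq_mul, mul_assoc]
          _ ≤ 1 * P (nb π Q n η) := by
              gcongr
              exact N_len_le F
          _ = _ := one_mul _

theorem fixed_ae [CompleteSpace H] (hd : 2 ≤ d) (hn : 2 ≤ n) (hc : 0 < c)
    (towers : ∀ ε : ℝ, 0 < ε → Nonempty (GoodTower T J c ε))
    (hmaps : MapsTo T (Ico 0 1) (Ico 0 1)) (hinj : InjOn T (Ico 0 1))
    (herg : Ergodic T (volume.restrict (Ico (0 : ℝ) 1)))
    (μ : Measure (SLR d)) [μ.IsHaarMeasure] (hπ : ∀ v, Continuous fun g => π g v)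
    {Φ : (Fin n → SLR d) × ℝ → H} (hΦ : Measurable Φ)
    (hint : ∀ K : Set (Fin n → SLR d), MeasurableSet K → (Measure.pi fun _ : Fin n => μ) K ≠ ⊤ →
      ∫⁻ g in K, (∫⁻ x in Ico (0 : ℝ) 1, ‖Φ (g, x)‖ₑ) ∂(Measure.pi fun _ : Fin n => μ) ≠ ⊤)
    (hinv : ∀ᵐ g ∂(Measure.pi fun _ : Fin n => μ), ∀ᵐ x ∂(volume.restrict (Ico (0 : ℝ) 1)),
      Φ (g, T x) = π (g (J x)) (Φ (g, x))) :
    ∀ᵐ g ∂(Measure.pi fun _ : Fin n => μ), ∀ᵐ x ∂(volume.restrict (Ico (0 : ℝ) 1)),
      IsFixed π (Φ (g, x)) := by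
  set P := Measure.pi fun _ : Fin n => μ with hP
  set lam : Measure ℝ := volume.restrict (Ico (0 : ℝ) 1) with hlam
  -- the cocycle relation along orbits
  have hok : ∀ᵐ g ∂P, ∀ᵐ x ∂lam, OrbitOK π T J g (fun x => Φ (g, x)) x := by
    filter_upwards [hinv] with g hg
    have h1 : ∀ i : ℕ, ∀ᵐ x ∂lam, Φ (g, T (T^[i] x)) = π (g (J (T^[i] x))) (Φ (g, T^[i] x)) :=
      fun i => (herg.toMeasurePreserving.iterate i).quasiMeasurePreserving.ae hg
    filter_upwards [ae_all_iff.mpr h1] with x hx i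
    rw [Function.iterate_succ_apply']
    exact hx i
  -- the set of bad points
  have hfixm : MeasurableSet {v : H | IsFixed π v} := isClosed_fixed.measurableSet
  have hbadm : MeasurableSet {p : (Fin n → SLR d) × ℝ | ¬ IsFixed π (Φ p)} := hΦ hfixm.compl
  set β : (Fin n → SLR d) → ENNReal := fun g => lam {x | ¬ IsFixed π (Φ (g, x))} with hβ
  have hβm : Measurable β := measurable_measure_prodMk_left hbadm
  have hβ01 : ∀ᵐ g ∂P, β g = 0 ∨ ∀ᵐ x ∂lam, ¬ IsFixed π (Φ (g, x)) := by
    filter_upwards [hinv] with g hg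
    have hA : MeasurableSet {x : ℝ | ¬ IsFixed π (Φ (g, x))} :=
      (hΦ.comp measurable_prodMk_left) hfixm.compl
    have hAinv : T ⁻¹' {x : ℝ | ¬ IsFixed π (Φ (g, x))} =ᵐ[lam]
        {x : ℝ | ¬ IsFixed π (Φ (g, x))} := by
      rw [eventuallyEq_set]
      filter_upwards [hg] with x hx
      change ¬ IsFixed π (Φ (g, T x)) ↔ ¬ IsFixed π (Φ (g, x))
      rw [hx, isFixed_rep_iff]
    rcases herg.quasiErgodic.ae_empty_or_univ₀ hA.nullMeasurableSet hAinv with h1 | h1
    · left
      rw [hβ]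
      simp only
      rw [measure_congr h1, measure_empty]
    · right
      rw [eventuallyEq_univ] at h1
      exact h1
  by_contra hcon
  have hβne : P {g | β g ≠ 0} ≠ 0 := by
    intro h0
    apply hcon
    have : ∀ᵐ g ∂P, β g = 0 := by
      rw [ae_iff]; exact h0
    filter_upwards [this] with g hg
    rw [ae_iff]
    exact hg
  obtain ⟨K, hKm, hKsub, hK0, hKt⟩ := Measure.exists_subset_measure_lt_top (r := 0)
    (μ := P) (hβm (measurableSet_singleton 0).compl : MeasurableSet {g | β g ≠ 0})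
    (pos_iff_ne_zero.mpr hβne)
  have hKt' : P K ≠ ⊤ := hKt.ne
  -- pushforward measure on H
  set ρ : Measure H := ((P.restrict K).prod lam).map Φ with hρ
  have : IsFiniteMeasure (P.restrict K) := ⟨by rw [Measure.restrict_apply_univ]; exact hKt⟩
  have : IsFiniteMeasure lam := ⟨by rw [hlam, Measure.restrict_apply_univ]; simp⟩
  have : IsFiniteMeasure ρ := by rw [hρ]; infer_instance
  have hcK : ENNReal.ofReal c * P K / 4 ≠ 0 := by
    rw [ne_eq, ENNReal.div_eq_zero_iff, not_or]
    refine ⟨mul_ne_zero ?_ hK0.ne', by norm_num⟩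
    simpa using hc
  obtain ⟨Q, hQsub, hQ, hQlt⟩ := (hfixm.compl).exists_isCompact_sdiff_lt
    (measure_ne_top ρ _) hcK
  have hρfix : ρ {v : H | IsFixed π v} = 0 := by
    rw [hρ, Measure.map_apply hΦ hfixm, Measure.prod_apply (hΦ hfixm)]
    rw [lintegral_eq_zero_iff (measurable_measure_prodMk_left (hΦ hfixm))]
    have h1 : ∀ᵐ g ∂(P.restrict K), g ∈ K := ae_restrict_mem hKm
    filter_upwards [ae_restrict_of_ae hβ01, h1] with g hg hgK
    rcases hg with hg | hg
    · exact absurd hg (hKsub hgK)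
    · have : ∀ᵐ x ∂lam, ¬ IsFixed π (Φ (g, x)) := hg
      rw [ae_iff] at this
      simpa using this
  have hκ : ∫⁻ g in K, lam {x | Φ (g, x) ∉ Q} ∂P ≤ ENNReal.ofReal c * P K / 4 := by
    have h1 : ∫⁻ g in K, lam {x | Φ (g, x) ∉ Q} ∂P = ρ Qᶜ := by
      rw [hρ, Measure.map_apply hΦ hQ.measurableSet.compl,
        Measure.prod_apply (hΦ hQ.measurableSet.compl)]
      rfl
    rw [h1]
    calc ρ Qᶜ ≤ ρ ({v : H | IsFixed π v} ∪ ({v : H | IsFixed π v}ᶜ \ Q)) := by
          apply measure_mono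
          intro v hv
          by_cases h : IsFixed π v
          · exact Or.inl h
          · exact Or.inr ⟨h, hv⟩
      _ ≤ ρ {v : H | IsFixed π v} + ρ ({v : H | IsFixed π v}ᶜ \ Q) := measure_union_le _ _
      _ ≤ _ := by rw [hρfix, zero_add]; exact hQlt.le
  -- choose the neighbourhood
  have hnf : ∀ v ∈ Q, ¬ IsFixed π v := fun v hv => hQsub hv
  have htend := tendsto_measure_nb (n := n) hd hn μ hπ hQ hnf
  obtain ⟨m, hm⟩ := (htend.eventually_lt_const (pos_iff_ne_zero.mpr hcK)).exists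
  set η : ℝ := 1 / ((m : ℝ) + 1) with hη
  have hη0 : 0 < η := by positivity
  -- choose towers
  have htow : ∀ i : ℕ, ∃ (τ : GoodTower T J c (1 / ((i : ℝ) + 1))),
      Nonempty (Floors T J c (1 / ((i : ℝ) + 1)) τ) := by
    intro i
    obtain ⟨τ⟩ := towers (1 / ((i : ℝ) + 1)) (by positivity)
    exact ⟨τ, exists_floors τ hmaps hinj⟩
  choose τ hF using htow
  have F : ∀ i : ℕ, Floors T J c (1 / ((i : ℝ) + 1)) (τ i) := fun i => (hF i).some
  have hΦg : ∀ g, Measurable fun x => Φ (g, x) := fun g => hΦ.comp measurable_prodMk_left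
  have hfin : ∫⁻ g in K, (∫⁻ x in Ico (0 : ℝ) 1, ‖Φ (g, x)‖ₑ) ∂P ≠ ⊤ := hint K hKm hKt'
  have hnm : Measurable fun g => ∫⁻ x in Ico (0 : ℝ) 1, ‖Φ (g, x)‖ₑ :=
    (hΦ.enorm).lintegral_prod_right'
  have hosc0 : Tendsto (fun i => ∫⁻ g in K, osc (F i) (fun x => Φ (g, x)) ∂P) atTop (𝓝 0) := by
    have h1 : Tendsto (fun i => ∫⁻ g in K, osc (F i) (fun x => Φ (g, x)) ∂P) atTop
        (𝓝 (∫⁻ _ in K, 0 ∂P)) := by
      refine tendsto_lintegral_of_dominated_convergence
        (fun g => 2 * ∫⁻ x in Ico (0 : ℝ) 1, ‖Φ (g, x)‖ₑ) (fun i => measurable_osc (F i) hΦ)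
        (fun i => Eventually.of_forall fun g => osc_le (F i) (hΦg g)) ?_ ?_
      · rw [lintegral_const_mul _ hnm]
        exact ENNReal.mul_ne_top (by simp) hfin
      · filter_upwards [ae_lt_top hnm hfin] with g hg
        rw [ENNReal.tendsto_nhds_zero]
        intro ξ hξ
        obtain ⟨ε₀, hε₀, h2⟩ := osc_small (n := n) (hΦg g) hg.ne hξ.ne'
        obtain ⟨N, hN⟩ := exists_nat_one_div_lt hε₀
        filter_upwards [eventually_ge_atTop N] with i hi
        refine h2 T J c _ ?_ (τ i) (F i)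
        refine le_trans ?_ hN.le
        have : (N : ℝ) ≤ i := by exact_mod_cast hi
        gcongr
    simpa using h1
  have hosc1 : Tendsto (fun i => ENNReal.ofReal (2 / (c * η)) *
      ∫⁻ g in K, osc (F i) (fun x => Φ (g, x)) ∂P) atTop (𝓝 0) := by
    have := ENNReal.Tendsto.const_mul (a := ENNReal.ofReal (2 / (c * η))) hosc0
      (Or.inr ENNReal.ofReal_ne_top)
    rwa [mul_zero] at this
  obtain ⟨i, hi⟩ := (hosc1.eventually_lt_const (pos_iff_ne_zero.mpr hcK)).exists
  have hest := integrated_est hc hη0 μ hπ (F i) hΦ K (ae_restrict_of_ae hok) hQ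
  have hctop : ENNReal.ofReal c * P K ≠ ⊤ := ENNReal.mul_ne_top ENNReal.ofReal_ne_top hKt'
  set A := ENNReal.ofReal c * P K with hA
  have hlt : A < A / 4 + A / 4 + A / 4 + A / 4 := by
    calc A ≤ P (nb π Q n η) + ENNReal.ofReal (2 / (c * η)) *
          (∫⁻ g in K, osc (F i) (fun x => Φ (g, x)) ∂P)
        + ∫⁻ g in K, lam {x | Φ (g, x) ∉ Q} ∂P := hest
      _ ≤ A / 4 + A / 4 + A / 4 := by
          gcongr
      _ < A / 4 + A / 4 + A / 4 + A / 4 := by
          have h3 : A / 4 + A / 4 + A / 4 ≠ ⊤ := by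
            have h4 : A / 4 ≠ ⊤ := ENNReal.div_ne_top hctop (by norm_num)
            simp [h4]
          exact ENNReal.lt_add_right h3 hcK
  have heq : A / 4 + A / 4 + A / 4 + A / 4 = A := by
    have h5 : A / 4 + A / 4 + A / 4 + A / 4 = 4 * (A / 4) := by ring
    rw [h5, ENNReal.mul_div_cancel (by norm_num) (by norm_num)]
  rw [heq] at hlt
  exact lt_irrefl _ hlt

end SkewHM
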