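import Mathlib

/-!
# Slices of a square integrable function as a measurable family in `L²`
-/

open MeasureTheory Set Filter Topology

set_option linter.unusedSectionVars false

namespace SkewHM

section

variable {A Y : Type*} [MeasurableSpace A] [MeasurableSpace Y] {m : Measure Y}
  [IsProbabilityMeasure m]

open Classical in
/-- The slice of a function as an element of `L²`. -/
noncomputable def slice (m : Measure Y) (Φ : A × Y → ℝ) (a : A) : Lp ℝ 2 m :=
  if h : MemLp (fun y => Φ (a, y)) 2 m then h.toLp _ else 0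

lemma slice_of_memLp {Φ : A × Y → ℝ} {a : A} (h : MemLp (fun y => Φ (a, y)) 2 m) :
    slice m Φ a = h.toLp _ := by
  rw [slice, dif_pos h]

lemma coeFn_slice {Φ : A × Y → ℝ} {a : A} (h : MemLp (fun y => Φ (a, y)) 2 m) :
    slice m Φ a =ᵐ[m] fun y => Φ (a, y) := by
  rw [slice_of_memLp h]
  exact h.coeFn_toLp

lemma measurable_eLpNorm_slice {Φ : A × Y → ℝ} (hΦ : Measurable Φ) (u : Y → ℝ)
    (hu : Measurable u) :
    Measurable fun a => eLpNorm (fun y => Φ (a, y) - u y) 2 m := by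
  have h1 : ∀ a, eLpNorm (fun y => Φ (a, y) - u y) 2 m
      = (∫⁻ y, ‖Φ (a, y) - u y‖ₑ ^ (2 : ℝ) ∂m) ^ (1 / (2 : ℝ)) := by
    intro a
    rw [eLpNorm_eq_lintegral_rpow_enorm_toReal (by norm_num) (by norm_num)]
    simp
  simp_rw [h1]
  have h2 : Measurable fun p : A × Y => ‖Φ p - u p.2‖ₑ ^ (2 : ℝ) :=
    ((hΦ.sub (hu.comp measurable_snd)).enorm).pow_const _
  exact (h2.lintegral_prod_right').pow_const _

lemma measurableSet_memLp {Φ : A × Y → ℝ} (hΦ : Measurable Φ) :
    MeasurableSet {a | MemLp (fun y => Φ (a, y)) 2 m} := by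
  have h1 : {a | MemLp (fun y => Φ (a, y)) 2 m}
      = {a | eLpNorm (fun y => Φ (a, y) - 0) 2 m < ⊤} := by
    ext a
    simp only [Set.mem_ofPred_eq, sub_zero]
    constructor
    · intro h; exact h.2
    · intro h; exact ⟨(hΦ.comp measurable_prodMk_left).aestronglyMeasurable, h⟩
  rw [h1]
  exact measurableSet_lt (measurable_eLpNorm_slice hΦ (fun _ => 0) measurable_const)
    measurable_const

theorem measurable_slice [MeasurableSpace (Lp ℝ 2 m)] [BorelSpace (Lp ℝ 2 m)]
    [SecondCountableTopology (Lp ℝ 2 m)] {Φ : A × Y → ℝ} (hΦ : Measurable Φ) :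
    Measurable (slice m Φ) := by
  classical
  have hbasis : TopologicalSpace.IsTopologicalBasis
      {s : Set (Lp ℝ 2 m) | ∃ u : Lp ℝ 2 m, ∃ r : ENNReal, s = Metric.eball u r} := by
    refine TopologicalSpace.isTopologicalBasis_of_isOpen_of_nhds ?_ ?_
    · rintro s ⟨u, r, rfl⟩
      exact Metric.isOpen_eball
    · intro a s ha hs
      obtain ⟨ε, hε, hsub⟩ := EMetric.isOpen_iff.mp hs a ha
      exact ⟨Metric.eball a ε, ⟨a, ε, rfl⟩, Metric.mem_eball_self hε, hsub⟩
  have hb : (‹MeasurableSpace (Lp ℝ 2 m)› : MeasurableSpace (Lp ℝ 2 m))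
      = MeasurableSpace.generateFrom
        {s : Set (Lp ℝ 2 m) | ∃ u : Lp ℝ 2 m, ∃ r : ENNReal, s = Metric.eball u r} := by
    rw [← hbasis.borel_eq_generateFrom]
    exact BorelSpace.measurable_eq
  have hM := measurableSet_memLp (m := m) hΦ
  suffices h : @Measurable A (Lp ℝ 2 m) _ (MeasurableSpace.generateFrom
        {s : Set (Lp ℝ 2 m) | ∃ u : Lp ℝ 2 m, ∃ r : ENNReal, s = Metric.eball u r})
        (slice m Φ) by
    rw [hb]; exact h
  refine measurable_generateFrom ?_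
  rintro s ⟨u, r, rfl⟩
  have h1 : slice m Φ ⁻¹' Metric.eball u r
      = ({a | MemLp (fun y => Φ (a, y)) 2 m} ∩ {a | eLpNorm (fun y => Φ (a, y) - u y) 2 m < r})
        ∪ ({a | MemLp (fun y => Φ (a, y)) 2 m}ᶜ ∩ {_a | edist (0 : Lp ℝ 2 m) u < r}) := by
    ext a
    by_cases ha : MemLp (fun y => Φ (a, y)) 2 m
    · have h2 : edist (slice m Φ a) u = eLpNorm (fun y => Φ (a, y) - u y) 2 m := by
        rw [Lp.edist_def]
        refine eLpNorm_congr_ae ?_
        filter_upwards [coeFn_slice ha] with y hy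
        rw [Pi.sub_apply, hy]
      simp [Metric.mem_eball, h2, ha]
    · have h2 : slice m Φ a = 0 := by rw [slice, dif_neg ha]
      simp [Metric.mem_eball, h2, ha]
  rw [h1]
  refine (hM.inter ?_).union (hM.compl.inter (MeasurableSet.const _))
  exact measurableSet_lt (measurable_eLpNorm_slice hΦ u (Lp.stronglyMeasurable u).measurable)
    measurable_const

/-- the norm of the slice is bounded by the square integral -/
lemma enorm_slice_le {Φ : A × Y → ℝ} (a : A) :
    ‖slice m Φ a‖ₑ ≤ 1 + ∫⁻ y, ‖Φ (a, y)‖ₑ ^ (2 : ℝ) ∂m := by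
  by_cases ha : MemLp (fun y => Φ (a, y)) 2 m
  · have h2 : ‖slice m Φ a‖ₑ = eLpNorm (fun y => Φ (a, y)) 2 m := by
      rw [slice_of_memLp ha, Lp.enorm_toLp]
    rw [h2, eLpNorm_eq_lintegral_rpow_enorm_toReal (by norm_num) (by norm_num)]
    simp only [ENNReal.toReal_ofNat]
    set I := ∫⁻ y, ‖Φ (a, y)‖ₑ ^ (2 : ℝ) ∂m with hI
    rcases le_total I 1 with h | h
    · calc I ^ (1 / (2 : ℝ)) ≤ 1 ^ (1 / (2 : ℝ)) := by gcongr
        _ = 1 := ENNReal.one_rpow _
        _ ≤ 1 + I := le_self_add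
    · calc I ^ (1 / (2 : ℝ)) ≤ I ^ (1 : ℝ) := ENNReal.rpow_le_rpow_of_exponent_le h (by norm_num)
        _ = I := ENNReal.rpow_one _
        _ ≤ 1 + I := le_add_self
  · rw [slice, dif_neg ha]
    simp

end

end SkewHM
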