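import Pool.Agent.Lib.Helper64.Skew.FixedAE
import Pool.Agent.Lib.Helper64.Skew.L2Slice
import Pool.Agent.Lib.Helper20.Skew.Koopman

/-!
# Invariant functions of the skew products over a fixed interval exchange
-/

open MeasureTheory Set Filter Topology

set_option linter.unusedSectionVars false

namespace SkewHM

open SkewIET

variable {n d : ℕ} {T : ℝ → ℝ} {J : ℝ → Fin n} {c : ℝ}
variable (Γ : Subgroup (SLR d)) [IsClosed (Γ : Set (SLR d))]
  [MeasurableSpace (SLR d)] [BorelSpace (SLR d)]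
  [MeasurableSpace (SLR d ⧸ Γ)] [BorelSpace (SLR d ⧸ Γ)]
  (m : Measure (SLR d ⧸ Γ)) [IsProbabilityMeasure m]
  [SMulInvariantMeasure (SLR d) (SLR d ⧸ Γ) m]

lemma slice_equivariant {A : Type*} [MeasurableSpace A] {Φ : A × (SLR d ⧸ Γ) → ℝ} {a a' : A}
    {g : SLR d} (ha : MemLp (fun y => Φ (a, y)) 2 m) (ha' : MemLp (fun y => Φ (a', y)) 2 m)
    (h : ∀ᵐ y ∂m, Φ (a', g • y) = Φ (a, y)) :
    slice m Φ a' = koopman (ι := Fin d) m g (slice m Φ a) := by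
  apply Lp.ext
  have hq : Measure.QuasiMeasurePreserving (fun y : SLR d ⧸ Γ => g⁻¹ • y) m m :=
    (measurePreserving_smul g⁻¹ m).quasiMeasurePreserving
  have h1 := coeFn_slice ha'
  have h2 := koopman_ae m g (slice m Φ a)
  have h3 : ∀ᵐ y ∂m, (slice m Φ a) (g⁻¹ • y) = Φ (a, g⁻¹ • y) := hq.ae (coeFn_slice ha)
  have h4 : ∀ᵐ y ∂m, Φ (a', g • g⁻¹ • y) = Φ (a, g⁻¹ • y) := hq.ae h
  filter_upwards [h1, h2, h3, h4] with y e1 e2 e3 e4
  rw [e1, e2, e3, ← e4, smul_inv_smul]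

theorem const_of_invariant (hd : 2 ≤ d) (hn : 2 ≤ n) (hc : 0 < c)
    (towers : ∀ ε : ℝ, 0 < ε → Nonempty (GoodTower T J c ε))
    (hmaps : MapsTo T (Ico 0 1) (Ico 0 1)) (hinj : InjOn T (Ico 0 1))
    (herg : Ergodic T (volume.restrict (Ico (0 : ℝ) 1)))
    (μ : Measure (SLR d)) [μ.IsHaarMeasure]
    {Φ : ((Fin n → SLR d) × ℝ) × (SLR d ⧸ Γ) → ℝ} (hΦ : Measurable Φ)
    (hL2 : ∫⁻ p, (∫⁻ y, ‖Φ (p, y)‖ₑ ^ (2 : ℝ) ∂m)
      ∂((Measure.pi fun _ : Fin n => μ).prod (volume.restrict (Ico (0 : ℝ) 1))) ≠ ⊤)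
    (hinv2 : ∀ᵐ g ∂(Measure.pi fun _ : Fin n => μ), ∀ᵐ x ∂(volume.restrict (Ico (0 : ℝ) 1)),
      ∀ᵐ y ∂m, Φ ((g, T x), g (J x) • y) = Φ ((g, x), y)) :
    ∀ᵐ g ∂(Measure.pi fun _ : Fin n => μ), ∃ κ : ℝ,
      ∀ᵐ x ∂(volume.restrict (Ico (0 : ℝ) 1)), ∀ᵐ y ∂m, Φ ((g, x), y) = κ := by
  set P := Measure.pi fun _ : Fin n => μ with hP
  set lam : Measure ℝ := volume.restrict (Ico (0 : ℝ) 1) with hlam
  let _ : MeasurableSpace (Lp ℝ 2 m) := borel _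
  have : BorelSpace (Lp ℝ 2 m) := ⟨rfl⟩
  have : Fact ((2 : ENNReal) ≠ ⊤) := ⟨by simp⟩
  have : Fact ((1 : ENNReal) ≤ 2) := ⟨by simp⟩
  have hsep : SecondCountableTopology (Lp ℝ 2 m) := inferInstance
  have hI : Measurable fun p : (Fin n → SLR d) × ℝ => ∫⁻ y, ‖Φ (p, y)‖ₑ ^ (2 : ℝ) ∂m :=
    (hΦ.enorm.pow_const _).lintegral_prod_right'
  -- slices are square integrable
  have hmem : ∀ᵐ p ∂(P.prod lam), MemLp (fun y => Φ (p, y)) 2 m := by
    filter_upwards [ae_lt_top hI hL2] with p hp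
    refine ⟨(hΦ.comp measurable_prodMk_left).aestronglyMeasurable, ?_⟩
    rw [eLpNorm_lt_top_iff_lintegral_rpow_enorm_lt_top (by norm_num) (by norm_num)]
    simpa using hp
  have hmem2 := Measure.ae_ae_of_ae_prod hmem
  have hTq : Measure.QuasiMeasurePreserving T lam lam := herg.toMeasurePreserving.quasiMeasurePreserving
  have hF : Measurable (slice m Φ) := measurable_slice hΦ
  have hequiv : ∀ᵐ g ∂P, ∀ᵐ x ∂lam, slice m Φ (g, T x)
      = koopman (ι := Fin d) m (g (J x)) (slice m Φ (g, x)) := by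
    filter_upwards [hmem2, hinv2] with g h1 h2
    filter_upwards [h1, hTq.ae h1, h2] with x e1 e2 e3
    exact slice_equivariant Γ m e1 e2 e3
  have hint : ∀ K : Set (Fin n → SLR d), MeasurableSet K → P K ≠ ⊤ →
      ∫⁻ g in K, (∫⁻ x in Ico (0 : ℝ) 1, ‖slice m Φ (g, x)‖ₑ) ∂P ≠ ⊤ := by
    intro K _ hK
    have h1 : ∫⁻ g in K, (∫⁻ x in Ico (0 : ℝ) 1, ‖slice m Φ (g, x)‖ₑ) ∂P
        ≤ P K + ∫⁻ p, (∫⁻ y, ‖Φ (p, y)‖ₑ ^ (2 : ℝ) ∂m) ∂(P.prod lam) := by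
      calc ∫⁻ g in K, (∫⁻ x in Ico (0 : ℝ) 1, ‖slice m Φ (g, x)‖ₑ) ∂P
          ≤ ∫⁻ g in K, (∫⁻ x in Ico (0 : ℝ) 1,
            (1 + ∫⁻ y, ‖Φ ((g, x), y)‖ₑ ^ (2 : ℝ) ∂m)) ∂P := by
            gcongr with g x
            exact enorm_slice_le _
        _ = ∫⁻ g in K, (1 + ∫⁻ x in Ico (0 : ℝ) 1,
            (∫⁻ y, ‖Φ ((g, x), y)‖ₑ ^ (2 : ℝ) ∂m)) ∂P := by
            refine lintegral_congr fun g => ?_
            rw [lintegral_add_left measurable_const, setLIntegral_const, Real.volume_Ico]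
            simp
        _ = P K + ∫⁻ g in K, (∫⁻ x in Ico (0 : ℝ) 1,
            (∫⁻ y, ‖Φ ((g, x), y)‖ₑ ^ (2 : ℝ) ∂m)) ∂P := by
            rw [lintegral_add_left measurable_const, setLIntegral_const, one_mul]
        _ ≤ P K + ∫⁻ g, (∫⁻ x in Ico (0 : ℝ) 1,
            (∫⁻ y, ‖Φ ((g, x), y)‖ₑ ^ (2 : ℝ) ∂m)) ∂P := by
            gcongr
            exact Measure.restrict_le_self
        _ = _ := by
            rw [lintegral_prod _ hI.aemeasurable]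
    exact ne_top_of_le_ne_top (ENNReal.add_ne_top.mpr ⟨hK, hL2⟩) h1
  have hfix := fixed_ae (π := koopman (ι := Fin d) m) hd hn hc towers hmaps hinj herg μ
    (continuous_koopman m) hF hint hequiv
  filter_upwards [hfix, hmem2, hinv2] with g h1 h2 h3
  -- the mean over the fibre
  set C : ℝ → ℝ := fun x => ∫ y, Φ ((g, x), y) ∂m with hC
  have hCm : Measurable C := by
    have h4 : Measurable fun q : ℝ × (SLR d ⧸ Γ) => Φ ((g, q.1), q.2) :=
      hΦ.comp ((measurable_const.prodMk measurable_fst).prodMk measurable_snd)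
    exact (h4.stronglyMeasurable.integral_prod_right').measurable
  have hconst : ∀ᵐ x ∂lam, ∀ᵐ y ∂m, Φ ((g, x), y) = C x := by
    filter_upwards [h1, h2] with x e1 e2
    obtain ⟨κ, hκ⟩ := const_of_isFixed_koopman Γ m _ e1
    have h5 : ∀ᵐ y ∂m, Φ ((g, x), y) = κ := by
      filter_upwards [hκ, coeFn_slice e2] with y f1 f2
      rw [← f2, f1]
    have h6 : C x = κ := by
      rw [hC]
      simp only
      rw [integral_congr_ae h5]
      simp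
    rw [h6]
    exact h5
  have hCinv : C ∘ T =ᵐ[lam] C := by
    filter_upwards [h3] with x e3
    change ∫ y, Φ ((g, T x), y) ∂m = ∫ y, Φ ((g, x), y) ∂m
    rw [← integral_congr_ae e3]
    exact (integral_smul_eq_self (μ := m) (g := g (J x)) (fun y => Φ ((g, T x), y))).symm
  obtain ⟨κ, hκ⟩ := herg.ae_eq_const_of_ae_eq_comp₀ hCm.nullMeasurable hCinv
  refine ⟨κ, ?_⟩
  filter_upwards [hconst, hκ] with x e1 e2
  filter_upwards [e1] with y f1
  rw [f1, e2]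
  rfl

end SkewHM
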