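import Mathlib

/-!
# Mautner phenomenon and a Howe–Moore type statement for `SL(d,ℝ)`
-/

open Matrix Matrix.SpecialLinearGroup Filter Topology

set_option linter.unusedSectionVars false

namespace SkewHM

/-- `SL(d,ℝ)`. -/
abbrev SLR (d : ℕ) := Matrix.SpecialLinearGroup (Fin d) ℝ

section Matrices

variable {ι : Type*} [Fintype ι] [DecidableEq ι]

lemma diag2n_eq {i j : ι} (hij : i ≠ j) (a : ℝ) (ha : a ≠ 0) :
    (diag2n hij a ha : Matrix ι ι ℝ)
      = 1 + Matrix.single i i (a - 1) + Matrix.single j j (a⁻¹ - 1) := by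
  rw [diag2n_coe]
  ext k l
  by_cases hkl : k = l
  · subst hkl
    rw [Matrix.diagonal_apply_eq, Matrix.add_apply, Matrix.add_apply, Matrix.one_apply_eq]
    by_cases hi : k = i
    · subst hi
      simp [hij.symm]
    · by_cases hj : k = j
      · subst hj
        simp [hi, Ne.symm hi]
      · simp [hi, hj, Ne.symm hi, Ne.symm hj]
  · rw [Matrix.diagonal_apply_ne _ hkl, Matrix.add_apply, Matrix.add_apply,
      Matrix.one_apply_ne hkl, Matrix.single_apply_of_ne, Matrix.single_apply_of_ne]
    · simp
    · rintro ⟨rfl, rfl⟩; exact hkl rfl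
    · rintro ⟨rfl, rfl⟩; exact hkl rfl

lemma transvection_diag_identity {i j : ι} (hij : i ≠ j) (a : ℝ) (ha : a ≠ 0) (c : ℝ)
    (hc : c ≠ 0) :
    SpecialLinearGroup.transvection hij ((a - 1) / c) * SpecialLinearGroup.transvection hij.symm c
        * SpecialLinearGroup.transvection hij ((a⁻¹ - 1) / c)
      = SpecialLinearGroup.transvection hij.symm (c / a) * diag2n hij a ha := by
  apply Subtype.ext
  simp only [Matrix.SpecialLinearGroup.coe_mul]
  rw [diag2n_eq, transvection_coe, transvection_coe, transvection_coe, transvection_coe]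
  have e1 : (a - 1) / c * c = a - 1 := by field_simp
  have e2 : c * ((a⁻¹ - 1) / c) = a⁻¹ - 1 := by field_simp
  have e3 : c / a * (a - 1) = c - c / a := by field_simp
  have e4 : (a - 1) / c + (a - 1) * ((a⁻¹ - 1) / c) + (a⁻¹ - 1) / c = 0 := by
    field_simp; ring
  simp only [mul_add, add_mul, mul_one, one_mul, single_mul_single_same,
    single_mul_single_of_ne _ _ _ _ hij, single_mul_single_of_ne _ _ _ _ hij.symm, e1, e2, e3,
    add_zero]
  have h1 : (Matrix.single i j ((a - 1) / c) : Matrix ι ι ℝ)
      + Matrix.single i j ((a - 1) * ((a⁻¹ - 1) / c)) + Matrix.single i j ((a⁻¹ - 1) / c) = 0 := by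
    rw [← single_add, ← single_add, e4, single_zero]
  have h2 : (Matrix.single j i c : Matrix ι ι ℝ)
      = Matrix.single j i (c / a) + Matrix.single j i (c - c / a) := by
    rw [← single_add]; congr 1; ring
  rw [h2]
  have h3 : (Matrix.single i j ((a⁻¹ - 1) / c) : Matrix ι ι ℝ)
      = - Matrix.single i j ((a - 1) / c) - Matrix.single i j ((a - 1) * ((a⁻¹ - 1) / c)) := by
    rw [eq_sub_iff_add_eq, eq_neg_iff_add_eq_zero, ← h1]; abel
  rw [h3]
  abel

lemma continuous_transvection {i j : ι} (hij : i ≠ j) :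
    Continuous fun s : ℝ => (SpecialLinearGroup.transvection hij s : SpecialLinearGroup ι ℝ) := by
  refine Topology.IsInducing.subtypeVal.continuous_iff.mpr ?_
  change Continuous fun s : ℝ => ((SpecialLinearGroup.transvection hij s : SpecialLinearGroup ι ℝ) :
    Matrix ι ι ℝ)
  simp only [transvection_coe]
  refine continuous_const.add ?_
  refine continuous_matrix fun k l => ?_
  by_cases h : i = k ∧ j = l
  · obtain ⟨rfl, rfl⟩ := h
    simp only [Matrix.single_apply_same]
    exact continuous_id
  · simp only [Matrix.single_apply, if_neg h]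
    exact continuous_const

lemma diag_conj {i j k l : ι} (hij : i ≠ j) (hkl : k ≠ l) (a : ℝ) (ha : a ≠ 0) (s s' : ℝ)
    (h : s' * (if l = i then a else if l = j then a⁻¹ else 1)
      = (if k = i then a else if k = j then a⁻¹ else 1) * s) :
    diag2n hij a ha * SpecialLinearGroup.transvection hkl s * (diag2n hij a ha)⁻¹
      = SpecialLinearGroup.transvection hkl s' := by
  rw [mul_inv_eq_iff_eq_mul]
  apply Subtype.ext
  simp only [Matrix.SpecialLinearGroup.coe_mul]
  rw [diag2n_coe, transvection_coe, transvection_coe, mul_add, add_mul, mul_one, one_mul]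
  congr 1
  ext x y
  rw [Matrix.diagonal_mul, Matrix.mul_diagonal, Matrix.single_apply, Matrix.single_apply]
  by_cases hh : k = x ∧ l = y
  · obtain ⟨rfl, rfl⟩ := hh
    simp only [and_self, if_true]
    exact h.symm
  · simp [if_neg hh]

lemma diag2n_inv {i j : ι} (hij : i ≠ j) (a : ℝ) (ha : a ≠ 0) :
    (diag2n hij a ha)⁻¹ = (diag2n hij a⁻¹ (inv_ne_zero ha) : SpecialLinearGroup ι ℝ) := by
  apply inv_eq_of_mul_eq_one_right
  apply Subtype.ext
  simp only [Matrix.SpecialLinearGroup.coe_mul, Matrix.SpecialLinearGroup.coe_one]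
  rw [diag2n_coe, diag2n_coe, Matrix.diagonal_mul_diagonal, ← Matrix.diagonal_one]
  congr 1
  funext k
  split_ifs
  · exact mul_inv_cancel₀ ha
  · rw [inv_inv, inv_mul_cancel₀ ha]
  · simp

end Matrices

/-! ### Fixed vectors -/

section Rep

variable {H : Type*} [NormedAddCommGroup H] [InnerProductSpace ℝ H]
variable {ι : Type*} [Fintype ι] [DecidableEq ι]
variable (π : SpecialLinearGroup ι ℝ →* (H ≃ₗᵢ[ℝ] H))

/-- The vector is fixed by the whole group. -/
def IsFixed (v : H) : Prop := ∀ g, π g v = v

variable {π}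

lemma rep_mul (g h : SpecialLinearGroup ι ℝ) (v : H) : π (g * h) v = π g (π h v) := by
  rw [map_mul]; rfl

lemma rep_one (v : H) : π 1 v = v := by
  rw [map_one]; rfl

lemma rep_inv_self (g : SpecialLinearGroup ι ℝ) (v : H) : π g⁻¹ (π g v) = v := by
  rw [← rep_mul, inv_mul_cancel, rep_one]

lemma rep_self_inv (g : SpecialLinearGroup ι ℝ) (v : H) : π g (π g⁻¹ v) = v := by
  rw [← rep_mul, mul_inv_cancel, rep_one]

lemma rep_norm (g : SpecialLinearGroup ι ℝ) (v : H) : ‖π g v‖ = ‖v‖ := (π g).norm_map v

lemma rep_norm_sub (g : SpecialLinearGroup ι ℝ) (v w : H) : ‖π g v - π g w‖ = ‖v - w‖ := by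
  rw [← map_sub, rep_norm]

lemma inv_fixed {g : SpecialLinearGroup ι ℝ} {v : H} (h : π g v = v) : π g⁻¹ v = v := by
  conv_lhs => rw [← h]
  exact rep_inv_self g v

/-- Joint continuity. -/
lemma tendsto_rep (hπ : ∀ v, Continuous fun g => π g v) {α : Type*} {l : Filter α}
    {g : α → SpecialLinearGroup ι ℝ} {w : α → H} {g₀ : SpecialLinearGroup ι ℝ} {w₀ : H}
    (hg : Tendsto g l (𝓝 g₀)) (hw : Tendsto w l (𝓝 w₀)) :
    Tendsto (fun k => π (g k) (w k)) l (𝓝 (π g₀ w₀)) := by
  have h1 : Tendsto (fun k => π (g k) w₀) l (𝓝 (π g₀ w₀)) := ((hπ w₀).tendsto g₀).comp hg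
  have h2 : Tendsto (fun k => π (g k) (w k) - π (g k) w₀) l (𝓝 0) := by
    rw [tendsto_zero_iff_norm_tendsto_zero]
    simp_rw [rep_norm_sub]
    exact tendsto_iff_norm_sub_tendsto_zero.mp hw
  simpa using h2.add h1

/-- Step 1: invariance under a root group implies invariance under the corresponding torus. -/
lemma diag_fixed (hπ : ∀ v, Continuous fun g => π g v) {i j : ι} (hij : i ≠ j) {v : H}
    (hv : ∀ s : ℝ, π (SpecialLinearGroup.transvection hij s) v = v) (a : ℝ) (ha : a ≠ 0) :
    π (diag2n hij a ha) v = v := by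
  set D : SpecialLinearGroup ι ℝ := diag2n hij a ha with hD
  have key : ∀ c : ℝ, c ≠ 0 →
      ‖π (SpecialLinearGroup.transvection hij.symm (c / a)) (π D v) - v‖
        = ‖π (SpecialLinearGroup.transvection hij.symm c) v - v‖ := by
    intro c hc
    rw [← rep_mul, ← transvection_diag_identity hij a ha c hc, rep_mul, rep_mul, hv]
    conv_lhs => rw [← hv ((a - 1) / c)]
    rw [show π (SpecialLinearGroup.transvection hij ((a - 1) / c))
        (π (SpecialLinearGroup.transvection hij.symm c)
          (π (SpecialLinearGroup.transvection hij ((a - 1) / c)) v))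
        = π (SpecialLinearGroup.transvection hij ((a - 1) / c))
        (π (SpecialLinearGroup.transvection hij.symm c) v) by rw [hv], rep_norm_sub]
  have hseq : Tendsto (fun n : ℕ => 1 / ((n : ℝ) + 1)) atTop (𝓝 0) :=
    tendsto_one_div_add_atTop_nhds_zero_nat
  have hT0 : (SpecialLinearGroup.transvection hij.symm (0 : ℝ) : SpecialLinearGroup ι ℝ) = 1 :=
    transvection_coeff_zero _
  have h1 : Tendsto (fun n : ℕ =>
      ‖π (SpecialLinearGroup.transvection hij.symm (1 / ((n : ℝ) + 1))) v - v‖) atTop (𝓝 0) := by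
    have := tendsto_rep hπ (((continuous_transvection hij.symm).tendsto 0).comp hseq)
      (tendsto_const_nhds (x := v))
    rw [hT0, rep_one] at this
    exact tendsto_iff_norm_sub_tendsto_zero.mp this
  have h2 : Tendsto (fun n : ℕ =>
      ‖π (SpecialLinearGroup.transvection hij.symm ((1 / ((n : ℝ) + 1)) / a)) (π D v) - v‖) atTop
      (𝓝 ‖π D v - v‖) := by
    have hseq' : Tendsto (fun n : ℕ => (1 / ((n : ℝ) + 1)) / a) atTop (𝓝 0) := by
      simpa using hseq.div_const a
    have := tendsto_rep hπ (((continuous_transvection hij.symm).tendsto 0).comp hseq')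
      (tendsto_const_nhds (x := π D v))
    rw [hT0, rep_one] at this
    exact (this.sub tendsto_const_nhds).norm
  have h3 : ‖π D v - v‖ = 0 := by
    refine tendsto_nhds_unique h2 ?_
    refine h1.congr fun n => ?_
    rw [key _ (by positivity)]
  exact sub_eq_zero.mp (norm_eq_zero.mp h3)

/-- Step 2: contraction. -/
lemma contract_fixed (hπ : ∀ v, Continuous fun g => π g v) {k l : ι} (hkl : k ≠ l) {v : H}
    {D : SpecialLinearGroup ι ℝ} (hD : π D v = v) {lam : ℝ} (hlam : |lam| < 1)
    (hconj : ∀ s : ℝ, D * SpecialLinearGroup.transvection hkl s * D⁻¹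
      = SpecialLinearGroup.transvection hkl (lam * s)) (s : ℝ) :
    π (SpecialLinearGroup.transvection hkl s) v = v := by
  have hDinv := inv_fixed hD
  have step : ∀ s : ℝ, ‖π (SpecialLinearGroup.transvection hkl s) v - v‖
      = ‖π (SpecialLinearGroup.transvection hkl (lam * s)) v - v‖ := by
    intro s
    rw [← hconj, rep_mul, rep_mul, hDinv]
    conv_rhs => rw [← hD]
    rw [show π D (π (SpecialLinearGroup.transvection hkl s) (π D v))
      = π D (π (SpecialLinearGroup.transvection hkl s) v) by rw [hD], rep_norm_sub]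
  have iter : ∀ n : ℕ, ‖π (SpecialLinearGroup.transvection hkl s) v - v‖
      = ‖π (SpecialLinearGroup.transvection hkl (lam ^ n * s)) v - v‖ := by
    intro n
    induction n with
    | zero => simp
    | succ n ih => rw [ih, step, ← mul_assoc, pow_succ' lam n]
  have hlim : Tendsto (fun n : ℕ => lam ^ n * s) atTop (𝓝 0) := by
    simpa using (tendsto_pow_atTop_nhds_zero_of_abs_lt_one hlam).mul_const s
  have h1 := tendsto_rep hπ (((continuous_transvection hkl).tendsto 0).comp hlim)
    (tendsto_const_nhds (x := v))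
  rw [transvection_coeff_zero, rep_one] at h1
  have h2 := tendsto_iff_norm_sub_tendsto_zero.mp h1
  have h3 : ‖π (SpecialLinearGroup.transvection hkl s) v - v‖ = 0 := by
    refine tendsto_nhds_unique ?_ h2
    refine tendsto_const_nhds.congr fun n => ?_
    exact iter n
  exact sub_eq_zero.mp (norm_eq_zero.mp h3)

/-- invariance propagates to neighbouring root groups -/
lemma neighbour_fixed (hπ : ∀ v, Continuous fun g => π g v) {i j : ι} (hij : i ≠ j) {v : H}
    (hv : ∀ s : ℝ, π (SpecialLinearGroup.transvection hij s) v = v) {k l : ι} (hkl : k ≠ l)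
    (hne : k = i ∨ k = j ∨ l = i ∨ l = j) (s : ℝ) :
    π (SpecialLinearGroup.transvection hkl s) v = v := by
  -- weight
  have aux : ∀ a : ℝ, ∀ ha : a ≠ 0,
      |(if k = i then a else if k = j then a⁻¹ else 1) /
        (if l = i then a else if l = j then a⁻¹ else 1)| < 1 →
      π (SpecialLinearGroup.transvection hkl s) v = v := by
    intro a ha hlt
    refine contract_fixed hπ hkl (diag_fixed hπ hij hv a ha) hlt ?_ s
    intro s
    refine diag_conj hij hkl a ha s _ ?_
    have h0 : (if l = i then a else if l = j then a⁻¹ else 1) ≠ 0 := by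
      split_ifs <;> [exact ha; exact inv_ne_zero ha; exact one_ne_zero]
    field_simp
  have h2 : (2 : ℝ) ≠ 0 := two_ne_zero
  have h2' : (1 / 2 : ℝ) ≠ 0 := by norm_num
  rcases eq_or_ne k i with rfl | hki
  · rcases eq_or_ne l j with rfl | hlj
    · exact hv s
    · refine aux (1 / 2) h2' ?_
      rw [if_pos rfl, if_neg hkl.symm, if_neg hlj]
      norm_num [abs_of_pos]
  · rcases eq_or_ne k j with rfl | hkj
    · rcases eq_or_ne l i with rfl | hli
      · refine aux 2 h2 ?_
        rw [if_neg hki, if_pos rfl, if_pos rfl]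
        norm_num [abs_of_pos]
      · refine aux 2 h2 ?_
        rw [if_neg hki, if_pos rfl, if_neg hli, if_neg hkl.symm]
        norm_num [abs_of_pos]
    · rcases eq_or_ne l i with rfl | hli
      · refine aux 2 h2 ?_
        rw [if_neg hki, if_neg hkj, if_pos rfl]
        norm_num [abs_of_pos]
      · rcases eq_or_ne l j with rfl | hlj
        · refine aux (1 / 2) h2' ?_
          rw [if_neg hki, if_neg hkj, if_neg hli, if_pos rfl]
          norm_num [abs_of_pos]
        · exact absurd hne (by tauto)

/-- **Mautner**: a vector fixed by one root group is fixed by everything. -/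
theorem mautner [Nontrivial ι] (hπ : ∀ v, Continuous fun g => π g v) {i j : ι} (hij : i ≠ j)
    {v : H} (hv : ∀ s : ℝ, π (SpecialLinearGroup.transvection hij s) v = v) :
    IsFixed π v := by
  have all : ∀ (k l : ι) (hkl : k ≠ l) (s : ℝ),
      π (SpecialLinearGroup.transvection hkl s) v = v := by
    intro k l hkl s
    by_cases hne : k = i ∨ k = j ∨ l = i ∨ l = j
    · exact neighbour_fixed hπ hij hv hkl hne s
    · have hik : i ≠ k := by rintro rfl; exact hne (Or.inl rfl)
      have h1 : ∀ s : ℝ, π (SpecialLinearGroup.transvection hik s) v = v := fun s =>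
        neighbour_fixed hπ hij hv hik (Or.inl rfl) s
      exact neighbour_fixed hπ hik h1 hkl (Or.inr (Or.inl rfl)) s
  intro g
  refine diagonal_transvection_induction' (fun g => π g v = v) g ?_ ?_ ?_
  · intro i j hij c hc
    exact diag_fixed hπ hij (fun s => all i j hij s) c hc
  · intro i j hij a
    exact all i j hij a
  · intro A B hA hB
    rw [rep_mul, hB, hA]

end Rep

end SkewHM
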