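import Pool.Agent.Lib.Helper20.Skew.Word
import Pool.Agent.Lib.Helper64.Skew.Mautner

/-!
# Floors of a good tower and cocycles along them
-/

open MeasureTheory Set

set_option linter.unusedSectionVars false

namespace SkewHM

open SkewIET

variable {n : ℕ} {T : ℝ → ℝ} {J : ℝ → Fin n} {c ε : ℝ}

/-- The floors of a good tower together with the translation amounts and the common prefix
of the return words. -/
structure Floors (T : ℝ → ℝ) (J : ℝ → Fin n) (c ε : ℝ) (τ : GoodTower T J c ε) where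
  /-- translation of floor `k` -/
  t : ℕ → ℝ
  /-- translation of the return -/
  s : Fin n → ℝ
  /-- common prefix -/
  pre : ℕ → List (Fin n)
  t_eq : ∀ k ≤ τ.N, ∀ x ∈ Ico 0 τ.len, T^[k] x = x + t k
  s_eq : ∀ j, ∀ x ∈ Ico (τ.start j) (τ.start j + τ.width j), T^[(τ.W j).length] x = x + s j
  s_mem : ∀ j, ∀ x ∈ Ico (τ.start j) (τ.start j + τ.width j), x + s j ∈ Ico 0 τ.len
  pre_eq : ∀ k ≤ τ.N, ∀ j, (τ.W j).take k = pre k
  floor_sub : ∀ k < τ.N, Ico (t k) (t k + τ.len) ⊆ Ico 0 1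
  floor_disj : ∀ k < τ.N, ∀ k' < τ.N, k < k' →
    Disjoint (Ico (t k) (t k + τ.len)) (Ico (t k') (t k' + τ.len))

lemma iter_mem (hmaps : MapsTo T (Ico 0 1) (Ico 0 1)) {x : ℝ} (hx : x ∈ Ico (0 : ℝ) 1) (k : ℕ) :
    T^[k] x ∈ Ico (0 : ℝ) 1 := hmaps.iterate k hx

lemma exists_floors (τ : GoodTower T J c ε) (hmaps : MapsTo T (Ico 0 1) (Ico 0 1))
    (hinj : InjOn T (Ico 0 1)) : Nonempty (Floors T J c ε τ) := by
  classical
  have hI : Ico 0 τ.len ⊆ Ico 0 1 := Ico_subset_Ico_right τ.len_le_one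
  -- translations
  have ht : ∀ k : ℕ, ∃ t : ℝ, k ≤ τ.N → ∀ x ∈ Ico 0 τ.len, T^[k] x = x + t := by
    intro k
    by_cases hk : k ≤ τ.N
    · obtain ⟨t, ht⟩ := τ.rigid_trans k hk
      exact ⟨t, fun _ => ht⟩
    · exact ⟨0, fun h => absurd h hk⟩
  choose t ht using ht
  have hs : ∀ j, ∃ s : ℝ, ∀ x ∈ Ico (τ.start j) (τ.start j + τ.width j),
      T^[(τ.W j).length] x = x + s := fun j => τ.trans j _ le_rfl
  choose s hs using hs
  have h0 : (0 : ℝ) ∈ Ico 0 τ.len := ⟨le_rfl, τ.len_pos⟩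
  obtain ⟨j0, hj0⟩ := τ.cover 0 h0
  have hmem : ∀ j, τ.start j ∈ Ico (τ.start j) (τ.start j + τ.width j) := fun j =>
    ⟨le_rfl, by linarith [τ.width_pos j]⟩
  have hpre : ∀ k ≤ τ.N, ∀ j, (τ.W j).take k = (τ.W j0).take k := by
    intro k hk j
    apply List.ext_getElem
    · rw [List.length_take, List.length_take, min_eq_left (hk.trans (τ.N_le j)),
        min_eq_left (hk.trans (τ.N_le j0))]
    · intro i h1 h2
      rw [List.getElem_take, List.getElem_take]
      rw [List.length_take, lt_min_iff] at h1 h2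
      rw [← τ.orbit_label j _ (hmem j) i h1.2, ← τ.orbit_label j0 _ (hmem j0) i h2.2]
      exact τ.rigid_label i (lt_of_lt_of_le h1.1 hk) _ (τ.piece_sub j (hmem j)) _
        (τ.piece_sub j0 (hmem j0))
  have hfl : ∀ k < τ.N, ∀ y ∈ Ico (t k) (t k + τ.len), y - t k ∈ Ico 0 τ.len ∧
      T^[k] (y - t k) = y := by
    intro k hk y hy
    have h1 : y - t k ∈ Ico 0 τ.len := ⟨by linarith [hy.1], by linarith [hy.2]⟩
    exact ⟨h1, by rw [ht k hk.le _ h1]; ring⟩
  refine ⟨⟨t, s, fun k => (τ.W j0).take k, fun k hk => ht k hk, hs, ?_, hpre, ?_, ?_⟩⟩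
  · intro j x hx
    rw [← hs j x hx]
    exact τ.ret j x hx
  · intro k hk y hy
    obtain ⟨h1, h2⟩ := hfl k hk y hy
    rw [← h2]
    exact iter_mem hmaps (hI h1) k
  · intro k hk k' hk' hkk'
    rw [Set.disjoint_left]
    intro y hy hy'
    obtain ⟨h1, h2⟩ := hfl k hk y hy
    obtain ⟨h1', h2'⟩ := hfl k' hk' y hy'
    have h3 : T^[k] (T^[k' - k] (y - t k')) = T^[k] (y - t k) := by
      rw [← Function.iterate_add_apply, Nat.add_sub_cancel' hkk'.le, h2, h2']
    have h4 : T^[k' - k] (y - t k') = y - t k :=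
      (hinj.iterate hmaps k) (iter_mem hmaps (hI h1') _) (hI h1) h3
    obtain ⟨j, hj⟩ := τ.cover _ h1'
    refine τ.first_ret j _ hj (k' - k) (Nat.sub_pos_of_lt hkk') ?_ ?_
    · exact lt_of_lt_of_le (lt_of_le_of_lt (Nat.sub_le _ _) hk') (τ.N_le j)
    · rw [h4]; exact h1

section Cocycle

variable {H : Type*} [NormedAddCommGroup H] [InnerProductSpace ℝ H] {d : ℕ}
variable {π : SLR d →* (H ≃ₗᵢ[ℝ] H)}

/-- The cocycle relation holds along the whole forward orbit of `x`. -/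
def OrbitOK (π : SLR d →* (H ≃ₗᵢ[ℝ] H)) (T : ℝ → ℝ) (J : ℝ → Fin n) (g : Fin n → SLR d)
    (f : ℝ → H) (x : ℝ) : Prop :=
  ∀ i : ℕ, f (T^[i + 1] x) = π (g (J (T^[i] x))) (f (T^[i] x))

lemma OrbitOK.iterate {g : Fin n → SLR d} {f : ℝ → H} {x : ℝ} (h : OrbitOK π T J g f x) (k : ℕ) :
    OrbitOK π T J g f (T^[k] x) := by
  intro i
  rw [← Function.iterate_add_apply, ← Function.iterate_add_apply,
    show i + 1 + k = (i + k) + 1 by ring]
  exact h (i + k)

lemma orbit_word (τ : GoodTower T J c ε) {g : Fin n → SLR d} {f : ℝ → H} {j : Fin n} {x : ℝ}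
    (hx : x ∈ Ico (τ.start j) (τ.start j + τ.width j)) (hok : OrbitOK π T J g f x) :
    ∀ i ≤ (τ.W j).length, f (T^[i] x) = π (evalWord g ((τ.W j).take i)) (f x) := by
  intro i
  induction i with
  | zero =>
    intro _
    simp only [Function.iterate_zero, id_eq, List.take_zero, evalWord_nil]
    rw [rep_one]
  | succ i ih =>
    intro hi
    have hi' : i < (τ.W j).length := hi
    rw [hok i, ih hi'.le, τ.orbit_label j x hx i hi', ← rep_mul]
    congr 2
    rw [List.take_add_one, evalWord_append]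
    simp [List.getElem?_eq_getElem hi', evalWord]

/-- The conjugated return words. -/
def retWord {τ : GoodTower T J c ε} (F : Floors T J c ε τ) (k : ℕ) (g : Fin n → SLR d) :
    Fin n → SLR d :=
  fun j => evalWord g (F.pre k) * evalWord g (τ.W j) * (evalWord g (F.pre k))⁻¹

lemma floor_cocycle {τ : GoodTower T J c ε} (F : Floors T J c ε τ) {g : Fin n → SLR d}
    {f : ℝ → H} {j : Fin n} {x : ℝ}
    (hx : x ∈ Ico (τ.start j) (τ.start j + τ.width j)) (hok : OrbitOK π T J g f x)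
    {k : ℕ} (hk : k < τ.N) :
    f (x + F.s j + F.t k) = π (retWord F k g j) (f (x + F.t k)) := by
  have hxI := τ.piece_sub j hx
  have h1 : f (x + F.t k) = π (evalWord g (F.pre k)) (f x) := by
    rw [← F.t_eq k hk.le x hxI, orbit_word τ hx hok k (hk.le.trans (τ.N_le j)),
      F.pre_eq k hk.le j]
  have h2 : f (x + F.s j) = π (evalWord g (τ.W j)) (f x) := by
    rw [← F.s_eq j x hx, orbit_word τ hx hok _ le_rfl, List.take_length]
  have hxI' := F.s_mem j x hx
  obtain ⟨j', hj'⟩ := τ.cover _ hxI'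
  have hok' : OrbitOK π T J g f (x + F.s j) := by
    rw [← F.s_eq j x hx]
    exact hok.iterate _
  have h3 : f (x + F.s j + F.t k) = π (evalWord g (F.pre k)) (f (x + F.s j)) := by
    rw [← F.t_eq k hk.le _ hxI', orbit_word τ hj' hok' k (hk.le.trans (τ.N_le j')),
      F.pre_eq k hk.le j']
  rw [h3, h2, h1, retWord, rep_mul, rep_mul, rep_inv_self]

end Cocycle

end SkewHM
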