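import Pool.Agent.Lib.Helper64.Skew.Mautner

/-!
# A Howe–Moore type statement for `SL(d,ℝ)`
-/

open Matrix Matrix.SpecialLinearGroup Filter Topology

set_option linter.unusedSectionVars false

namespace SkewHM

section RankOne

variable {ι : Type*} [Fintype ι] [DecidableEq ι]

/-- The rank-one unipotent element `1 + a bᵀ`. -/
def rk (a b : ι → ℝ) (h : b ⬝ᵥ a = 0) : SpecialLinearGroup ι ℝ :=
  ⟨1 + vecMulVec a b, by
    rw [vecMulVec_eq Unit, det_one_add_replicateCol_mul_replicateRow, h, add_zero]⟩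

lemma rk_coe (a b : ι → ℝ) (h : b ⬝ᵥ a = 0) :
    (rk a b h : Matrix ι ι ℝ) = 1 + vecMulVec a b := rfl

lemma smul_dot {a b : ι → ℝ} (h : b ⬝ᵥ a = 0) (τ : ℝ) : b ⬝ᵥ (τ • a) = 0 := by
  rw [dotProduct_smul, h, smul_zero]

/-- conjugation of a root group to a rank-one group -/
lemma exists_conj {a b : ι → ℝ} (h : b ⬝ᵥ a = 0) (ha : a ≠ 0) (hb : b ≠ 0) :
    ∃ (i j : ι) (hij : i ≠ j) (g : SpecialLinearGroup ι ℝ) (c : ℝ), ∀ s : ℝ,
      g * SpecialLinearGroup.transvection hij s = rk ((c * s) • a) b (smul_dot h _) * g := by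
  obtain ⟨i, hi⟩ : ∃ i, a i ≠ 0 := by
    by_contra hcon
    push Not at hcon
    exact ha (funext hcon)
  obtain ⟨j, hj, hji⟩ : ∃ j, b j ≠ 0 ∧ j ≠ i := by
    by_contra hcon
    push Not at hcon
    have hbi : ∀ l, l ≠ i → b l = 0 := fun l hl => by
      by_contra hbl
      exact hl (hcon l hbl)
    have h1 : b ⬝ᵥ a = b i * a i := by
      rw [dotProduct]
      refine Finset.sum_eq_single i (fun l _ hl => ?_) (fun hh => absurd (Finset.mem_univ i) hh)
      rw [hbi l hl, zero_mul]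
    rw [h1] at h
    have hbi0 : b i = 0 := by
      rcases mul_eq_zero.mp h with h2 | h2
      · exact h2
      · exact absurd h2 hi
    apply hb
    funext l
    by_cases hl : l = i
    · subst hl; exact hbi0
    · exact hbi l hl
  -- the two factors
  set e : ι → ι → ℝ := fun k => Pi.single k 1 with he
  set u : ι → ℝ := (a i)⁻¹ • a - e i with hu
  set r : ι → ℝ := fun l => if l = i ∨ l = j then 0 else - b l / b j with hr
  have hdotu : e i ⬝ᵥ u = 0 := by
    simp only [he, hu, single_one_dotProduct, Pi.sub_apply, Pi.smul_apply, smul_eq_mul,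
      Pi.single_eq_same]
    rw [inv_mul_cancel₀ hi, sub_self]
  have hdotr : r ⬝ᵥ e j = 0 := by
    simp only [he, hr, dotProduct_single_one]
    simp
  set g : SpecialLinearGroup ι ℝ := rk u (e i) hdotu * rk (e j) r hdotr with hg
  have hgcoe : (g : Matrix ι ι ℝ) = (1 + vecMulVec u (e i)) * (1 + vecMulVec (e j) r) := rfl
  have hri : r ⬝ᵥ e i = 0 := by
    simp only [he, hr, dotProduct_single_one]
    simp
  -- action on `e i`
  have h1 : (g : Matrix ι ι ℝ) *ᵥ e i = (a i)⁻¹ • a := by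
    have h10 : (1 + vecMulVec (e j) r) *ᵥ e i = e i := by
      rw [add_mulVec, one_mulVec, vecMulVec_mulVec, hri, MulOpposite.op_zero, zero_smul, add_zero]
    rw [hgcoe, ← mulVec_mulVec, h10, add_mulVec, one_mulVec, vecMulVec_mulVec]
    have : e i ⬝ᵥ e i = 1 := by simp [he]
    rw [this, MulOpposite.op_one, one_smul, hu]
    abel
  have h2 : b ᵥ* (g : Matrix ι ι ℝ) = b j • e j := by
    have hbu : b ⬝ᵥ u = - b i := by
      rw [hu, dotProduct_sub, dotProduct_smul, h, smul_zero, zero_sub]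
      simp [he]
    have h20 : b ᵥ* (1 + vecMulVec u (e i)) = b + (- b i) • e i := by
      rw [vecMul_add, vecMul_one, vecMul_vecMulVec, hbu]
    rw [hgcoe, ← vecMul_vecMul, h20, vecMul_add, vecMul_one, vecMul_vecMulVec]
    have : (b + -b i • e i) ⬝ᵥ e j = b j := by
      simp [he, hji]
    rw [this]
    funext l
    simp only [Pi.add_apply, Pi.smul_apply, smul_eq_mul, he, hr]
    by_cases hli : l = i
    · subst hli
      simp [Ne.symm hji]
    · by_cases hlj : l = j
      · subst hlj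
        simp [hli]
      · simp only [hli, hlj, or_self, if_false, Pi.single_apply]
        field_simp
        ring
  refine ⟨i, j, hji.symm, g, (a i)⁻¹ * (b j)⁻¹, fun s => ?_⟩
  apply Subtype.ext
  simp only [Matrix.SpecialLinearGroup.coe_mul]
  rw [rk_coe, transvection_coe, mul_add, add_mul, mul_one, one_mul]
  congr 1
  rw [vecMulVec_mul, h2]
  have h3 : (Matrix.single i j s : Matrix ι ι ℝ) = s • vecMulVec (e i) (e j) := by
    ext k l
    simp [Matrix.single_apply, vecMulVec_apply, he, Pi.single_apply]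
    by_cases hk : i = k
    · subst hk
      by_cases hl : j = l
      · subst hl; simp
      · simp [hl, Ne.symm hl]
    · simp [hk, Ne.symm hk]
  rw [h3, Matrix.mul_smul, mul_vecMulVec, h1]
  ext k l
  simp only [Matrix.smul_apply, vecMulVec_apply, Pi.smul_apply, smul_eq_mul]
  field_simp

/-- entries of a matrix are bounded if the off-diagonal products are bounded -/
lemma entry_bound [Nontrivial ι] (M : SpecialLinearGroup ι ℝ) {R : ℝ} (hR : 0 ≤ R)
    (h : ∀ p q, p ≠ q → ∀ i j, |(M : Matrix ι ι ℝ) i p| * |(M⁻¹ : SpecialLinearGroup ι ℝ).1 q j| ≤ R)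
    (i p : ι) :
    |(M : Matrix ι ι ℝ) i p| ≤ (R + Fintype.card ι * R ^ 2) * (Fintype.card ι).factorial := by
  classical
  set M' : Matrix ι ι ℝ := (M⁻¹ : SpecialLinearGroup ι ℝ).1 with hM'
  have hinv : M' * (M : Matrix ι ι ℝ) = 1 := congrArg Subtype.val (inv_mul_cancel M)
  have hall : ∀ p q i j, |(M : Matrix ι ι ℝ) i p| * |M' q j| ≤ R + Fintype.card ι * R ^ 2 := by
    intro p q i j
    by_cases hpq : p = q
    · subst hpq
      obtain ⟨q, hq⟩ := exists_ne p
      have h1 : (∑ k, M' q k * (M : Matrix ι ι ℝ) k q) = 1 := by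
        have := congrFun (congrFun hinv q) q
        rwa [Matrix.mul_apply, Matrix.one_apply_eq] at this
      have h2 : (M : Matrix ι ι ℝ) i p * M' p j
          = ∑ k, ((M : Matrix ι ι ℝ) i p * M' q k) * ((M : Matrix ι ι ℝ) k q * M' p j) := by
        calc (M : Matrix ι ι ℝ) i p * M' p j
            = (M : Matrix ι ι ℝ) i p * M' p j * ∑ k, M' q k * (M : Matrix ι ι ℝ) k q := by
              rw [h1, mul_one]
          _ = _ := by
              rw [Finset.mul_sum]
              refine Finset.sum_congr rfl fun k _ => by ring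
      rw [← abs_mul, h2]
      calc |∑ k, ((M : Matrix ι ι ℝ) i p * M' q k) * ((M : Matrix ι ι ℝ) k q * M' p j)|
          ≤ ∑ k, |((M : Matrix ι ι ℝ) i p * M' q k) * ((M : Matrix ι ι ℝ) k q * M' p j)| :=
            Finset.abs_sum_le_sum_abs _ _
        _ ≤ ∑ _k : ι, R * R := by
            refine Finset.sum_le_sum fun k _ => ?_
            rw [abs_mul, abs_mul, abs_mul]
            exact mul_le_mul (h p q hq.symm i k) (h q p hq k j) (by positivity) hR
        _ = Fintype.card ι * R ^ 2 := by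
            rw [Finset.sum_const, Finset.card_univ, nsmul_eq_mul]; ring
        _ ≤ R + Fintype.card ι * R ^ 2 := by linarith
    · refine (h p q hpq i j).trans ?_
      have : 0 ≤ (Fintype.card ι : ℝ) * R ^ 2 := by positivity
      linarith
  -- `M'` has a large entry
  obtain ⟨q, j, hqj⟩ : ∃ q j, 1 / ((Fintype.card ι).factorial : ℝ) ≤ |M' q j| := by
    by_contra hcon
    push Not at hcon
    have hfac : (1 : ℝ) ≤ (Fintype.card ι).factorial := by
      exact_mod_cast Nat.one_le_iff_ne_zero.mpr (Nat.factorial_ne_zero _)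
    obtain ⟨x, hx0, hx1, hx2⟩ : ∃ x : ℝ, 0 ≤ x ∧ x < 1 / ((Fintype.card ι).factorial : ℝ) ∧
        ∀ q j, |M' q j| ≤ x := by
      obtain ⟨⟨q, j⟩, hm⟩ := Finite.exists_max fun z : ι × ι => |M' z.1 z.2|
      exact ⟨|M' q j|, abs_nonneg _, hcon q j, fun q' j' => hm (q', j')⟩
    have hdet : |M'.det| ≤ (Fintype.card ι).factorial • x ^ Fintype.card ι :=
      Matrix.det_le (abv := AbsoluteValue.abs) hx2
    have hdet1 : M'.det = 1 := (M⁻¹ : SpecialLinearGroup ι ℝ).2
    rw [hdet1, abs_one, nsmul_eq_mul] at hdet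
    have hcard : Fintype.card ι ≠ 0 := Fintype.card_ne_zero
    have hx3 : x ^ Fintype.card ι ≤ x := by
      refine pow_le_of_le_one hx0 ?_ hcard
      refine hx1.le.trans ?_
      rw [div_le_one (by linarith)]
      exact hfac
    have : ((Fintype.card ι).factorial : ℝ) * x < 1 := by
      rw [lt_div_iff₀ (by linarith)] at hx1
      linarith
    have h4 : ((Fintype.card ι).factorial : ℝ) * x ^ Fintype.card ι
        ≤ ((Fintype.card ι).factorial : ℝ) * x := by gcongr
    linarith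
  have hfac : (0 : ℝ) < (Fintype.card ι).factorial := by
    exact_mod_cast Nat.factorial_pos _
  have h1 := hall p q i j
  calc |(M : Matrix ι ι ℝ) i p| = |(M : Matrix ι ι ℝ) i p| * (1 / ((Fintype.card ι).factorial : ℝ))
        * (Fintype.card ι).factorial := by field_simp
    _ ≤ |(M : Matrix ι ι ℝ) i p| * |M' q j| * (Fintype.card ι).factorial := by gcongr
    _ ≤ _ := by gcongr

end RankOne

section HM

variable {H : Type*} [NormedAddCommGroup H] [InnerProductSpace ℝ H]
variable {ι : Type*} [Fintype ι] [DecidableEq ι]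
variable {π : SpecialLinearGroup ι ℝ →* (H ≃ₗᵢ[ℝ] H)}

lemma fixed_of_rk [Nontrivial ι] (hπ : ∀ v, Continuous fun g => π g v) {a b : ι → ℝ}
    (h : b ⬝ᵥ a = 0) (ha : a ≠ 0) (hb : b ≠ 0) {v : H}
    (hv : ∀ τ : ℝ, π (rk (τ • a) b (smul_dot h τ)) v = v) : IsFixed π v := by
  obtain ⟨i, j, hij, g, c, hg⟩ := exists_conj h ha hb
  have h1 : IsFixed π (π g⁻¹ v) := by
    apply mautner hπ hij
    intro s
    have h0 : π (g * SpecialLinearGroup.transvection hij s) (π g⁻¹ v) = v := by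
      rw [hg, rep_mul, rep_self_inv, hv]
    rw [rep_mul] at h0
    have h2 := congrArg (π g⁻¹) h0
    rwa [rep_inv_self] at h2
  have h3 : v = π g⁻¹ v := by
    have := h1 g
    rwa [rep_self_inv] at this
  intro k
  rw [h3]
  exact h1 k

/-- the product of the norms of the `p`-th column of `h` and the `q`-th row of `h⁻¹` -/
noncomputable def cr (p q : ι) (h : SpecialLinearGroup ι ℝ) : ℝ :=
  ‖fun i => h.1 i p‖ * ‖fun j => (h⁻¹ : SpecialLinearGroup ι ℝ).1 q j‖

lemma conj_coe {p q : ι} (hpq : p ≠ q) (h : SpecialLinearGroup ι ℝ) (s : ℝ) :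
    (h * SpecialLinearGroup.transvection hpq s * h⁻¹ : SpecialLinearGroup ι ℝ).1
      = 1 + s • vecMulVec (fun i => h.1 i p) (fun j => (h⁻¹ : SpecialLinearGroup ι ℝ).1 q j) := by
  have hinv : h.1 * (h⁻¹ : SpecialLinearGroup ι ℝ).1 = 1 :=
    congrArg Subtype.val (mul_inv_cancel h)
  have h0 : (h * SpecialLinearGroup.transvection hpq s * h⁻¹ : SpecialLinearGroup ι ℝ).1
      = h.1 * (SpecialLinearGroup.transvection hpq s).1 * (h⁻¹ : SpecialLinearGroup ι ℝ).1 := rfl
  rw [h0, show (SpecialLinearGroup.transvection hpq s : SpecialLinearGroup ι ℝ).1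
    = 1 + Matrix.single p q s from transvection_coe hpq s, mul_add, add_mul, mul_one, hinv]
  congr 1
  ext k l
  rw [Matrix.smul_apply, vecMulVec_apply, Matrix.mul_apply]
  rw [Finset.sum_eq_single q]
  · rw [Matrix.mul_single_apply_same]
    simp only [smul_eq_mul]
    ring
  · intro x _ hx
    rw [Matrix.mul_single_apply_of_ne _ _ _ _ _ hx, zero_mul]
  · intro hq; exact absurd (Finset.mem_univ q) hq

lemma continuous_dot : Continuous fun z : (ι → ℝ) × (ι → ℝ) => z.1 ⬝ᵥ z.2 := by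
  unfold dotProduct
  fun_prop

lemma continuous_rkmat (τ : ℝ) :
    Continuous fun z : (ι → ℝ) × (ι → ℝ) => (1 + vecMulVec (τ • z.1) z.2 : Matrix ι ι ℝ) := by
  refine continuous_const.add ?_
  refine continuous_matrix fun x y => ?_
  simp only [vecMulVec_apply, Pi.smul_apply, smul_eq_mul]
  fun_prop

lemma fixed_of_tendsto [Nontrivial ι] (hπ : ∀ v, Continuous fun g => π g v) {α : Type*}
    (U : Ultrafilter α) (h : α → SpecialLinearGroup ι ℝ) (v : H)
    (hret : Tendsto (fun k => π (h k) v) U (𝓝 v)) {p q : ι} (hpq : p ≠ q)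
    (hw : Tendsto (fun k => cr p q (h k)) U atTop) : IsFixed π v := by
  -- normalized column and row
  obtain ⟨col, hcol⟩ : ∃ col : α → ι → ℝ, ∀ k, col k = fun i => (h k).1 i p := ⟨_, fun _ => rfl⟩
  obtain ⟨row, hrow⟩ : ∃ row : α → ι → ℝ, ∀ k, row k =
    fun j => ((h k)⁻¹ : SpecialLinearGroup ι ℝ).1 q j := ⟨_, fun _ => rfl⟩
  have hwdef : ∀ k, cr p q (h k) = ‖col k‖ * ‖row k‖ := fun k => by rw [hcol, hrow]; rfl
  have hdot : ∀ k, row k ⬝ᵥ col k = 0 := by
    intro k
    have hinv : ((h k)⁻¹ : SpecialLinearGroup ι ℝ).1 * (h k).1 = 1 :=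
      congrArg Subtype.val (inv_mul_cancel (h k))
    have := congrFun (congrFun hinv q) p
    rw [Matrix.mul_apply, Matrix.one_apply_ne hpq.symm] at this
    rw [hcol, hrow]
    exact this
  have hpos : ∀ᶠ k in (U : Filter α), 0 < ‖col k‖ ∧ 0 < ‖row k‖ := by
    filter_upwards [hw.eventually_gt_atTop 0] with k hk
    rw [hwdef] at hk
    constructor
    · by_contra hc
      have : ‖col k‖ = 0 := le_antisymm (not_lt.mp hc) (norm_nonneg _)
      rw [this, zero_mul] at hk
      exact lt_irrefl _ hk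
    · by_contra hc
      have : ‖row k‖ = 0 := le_antisymm (not_lt.mp hc) (norm_nonneg _)
      rw [this, mul_zero] at hk
      exact lt_irrefl _ hk
  have hlim : ∀ (c : α → ι → ℝ), (∀ᶠ k in (U : Filter α), 0 < ‖c k‖) →
      ∃ a₀ : ι → ℝ, ‖a₀‖ = 1 ∧ Tendsto (fun k => ‖c k‖⁻¹ • c k) U (𝓝 a₀) := by
    intro c hc
    obtain ⟨a₀, ha₀, hle⟩ := (isCompact_sphere (0 : ι → ℝ) 1).ultrafilter_le_nhds'
      (U.map fun k => ‖c k‖⁻¹ • c k) (by
        change ∀ᶠ k in (U : Filter α), ‖c k‖⁻¹ • c k ∈ Metric.sphere (0 : ι → ℝ) 1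
        filter_upwards [hc] with k hk
        rw [mem_sphere_zero_iff_norm, norm_smul, norm_inv, norm_norm, inv_mul_cancel₀ hk.ne'])
    refine ⟨a₀, mem_sphere_zero_iff_norm.mp ha₀, ?_⟩
    exact hle
  obtain ⟨a₀, ha₀, hat⟩ := hlim col (hpos.mono fun _ hk => hk.1)
  obtain ⟨b₀, hb₀, hbt⟩ := hlim row (hpos.mono fun _ hk => hk.2)
  have hdot0 : b₀ ⬝ᵥ a₀ = 0 := by
    have h1 := (continuous_dot.tendsto (b₀, a₀)).comp (hbt.prodMk_nhds hat)
    have h2 : ∀ k, (‖row k‖⁻¹ • row k) ⬝ᵥ (‖col k‖⁻¹ • col k) = 0 := fun k => by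
      rw [smul_dotProduct, dotProduct_smul, hdot, smul_zero, smul_zero]
    have h3 : Tendsto (fun _ : α => (0 : ℝ)) U (𝓝 (b₀ ⬝ᵥ a₀)) := by
      refine Tendsto.congr (fun k => ?_) h1
      exact h2 k
    exact tendsto_nhds_unique h3 tendsto_const_nhds
  have ha₀' : a₀ ≠ 0 := by rintro rfl; simp at ha₀
  have hb₀' : b₀ ≠ 0 := by rintro rfl; simp at hb₀
  refine fixed_of_rk hπ hdot0 ha₀' hb₀' fun τ => ?_
  -- the conjugated elements
  set T : α → SpecialLinearGroup ι ℝ :=
    fun k => SpecialLinearGroup.transvection hpq (τ / cr p q (h k)) with hT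
  have hconj : ∀ k, (h k * T k * (h k)⁻¹ : SpecialLinearGroup ι ℝ).1
      = 1 + vecMulVec (τ • (‖col k‖⁻¹ • col k)) (‖row k‖⁻¹ • row k) := by
    intro k
    rw [hT, conj_coe, hwdef, ← hcol, ← hrow]
    congr 1
    ext x y
    simp only [Matrix.smul_apply, vecMulVec_apply, Pi.smul_apply, smul_eq_mul, div_eq_mul_inv,
      mul_inv]
    ring
  have hRlim : Tendsto (fun k => h k * T k * (h k)⁻¹) U (𝓝 (rk (τ • a₀) b₀ (smul_dot hdot0 τ))) := by
    refine (isClosedEmbedding_val (R := ℝ) (n := ι)).isInducing.tendsto_nhds_iff.mpr ?_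
    have h1 := ((continuous_rkmat τ).tendsto (a₀, b₀)).comp (hat.prodMk_nhds hbt)
    refine Tendsto.congr (fun k => ?_) h1
    exact (hconj k).symm
  have h5 := tendsto_rep hπ hRlim (tendsto_const_nhds (x := v))
  have hTlim : Tendsto (fun k => ‖π (T k) v - v‖) U (𝓝 0) := by
    have h6 : Tendsto (fun k => τ / cr p q (h k)) U (𝓝 0) := hw.const_div_atTop τ
    have h7 := tendsto_rep hπ (((continuous_transvection hpq).tendsto 0).comp h6)
      (tendsto_const_nhds (x := v))
    rw [transvection_coeff_zero, rep_one] at h7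
    exact tendsto_iff_norm_sub_tendsto_zero.mp h7
  have hret' : Tendsto (fun k => ‖π (h k) v - v‖) U (𝓝 0) :=
    tendsto_iff_norm_sub_tendsto_zero.mp hret
  have hbound : ∀ k, ‖π (h k * T k * (h k)⁻¹) v - v‖
      ≤ ‖π (h k) v - v‖ + ‖π (T k) v - v‖ + ‖π (h k) v - v‖ := by
    intro k
    have e1 : ‖π (h k * T k * (h k)⁻¹) v - π (h k * T k) v‖ = ‖π (h k) v - v‖ := by
      rw [rep_mul (h k * T k), rep_norm_sub]
      rw [← rep_norm_sub (π := π) (h k) (π (h k)⁻¹ v) v, rep_self_inv, norm_sub_rev]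
    have e2 : ‖π (h k * T k) v - π (h k) v‖ = ‖π (T k) v - v‖ := by
      rw [rep_mul, rep_norm_sub]
    calc ‖π (h k * T k * (h k)⁻¹) v - v‖
        = ‖(π (h k * T k * (h k)⁻¹) v - π (h k * T k) v) + (π (h k * T k) v - π (h k) v)
          + (π (h k) v - v)‖ := by congr 1; abel
      _ ≤ ‖π (h k * T k * (h k)⁻¹) v - π (h k * T k) v‖ + ‖π (h k * T k) v - π (h k) v‖
          + ‖π (h k) v - v‖ := norm_add₃_le
      _ = _ := by rw [e1, e2]
  have h8 : Tendsto (fun k => ‖π (h k * T k * (h k)⁻¹) v - v‖) U (𝓝 0) := by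
    have h9 := (hret'.add hTlim).add hret'
    rw [add_zero, add_zero] at h9
    exact squeeze_zero (fun _ => norm_nonneg _) hbound h9
  have h10 : Tendsto (fun k => π (h k * T k * (h k)⁻¹) v) U (𝓝 v) :=
    tendsto_iff_norm_sub_tendsto_zero.mpr h8
  exact tendsto_nhds_unique h5 h10

theorem returns_ultrafilter [Nontrivial ι] (hπ : ∀ v, Continuous fun g => π g v) {α : Type*}
    (U : Ultrafilter α) (h : α → SpecialLinearGroup ι ℝ) (v : H)
    (hret : Tendsto (fun k => π (h k) v) U (𝓝 v))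
    (hunb : ∀ B : ℝ, ∀ᶠ k in U, ∃ i j, B < |(h k).1 i j|) : IsFixed π v := by
  -- a pair for which the product tends to infinity
  obtain ⟨p, q, hpq, hw⟩ : ∃ p q : ι, p ≠ q ∧ Tendsto (fun k => cr p q (h k)) U atTop := by
    by_contra hcon
    push Not at hcon
    have h1 : ∀ p q : ι, ∃ R : ℝ, p ≠ q → ∀ᶠ k in U, cr p q (h k) < R := by
      intro p q
      by_cases hpq : p = q
      · exact ⟨0, fun hh => absurd hpq hh⟩
      · have h2 := hcon p q hpq
        rw [tendsto_atTop, not_forall] at h2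
        obtain ⟨R, hR⟩ := h2
        refine ⟨R, fun _ => ?_⟩
        have h3 : ∀ᶠ k in (U : Filter α), ¬ R ≤ cr p q (h k) := Ultrafilter.eventually_not.mpr hR
        filter_upwards [h3] with k hk
        exact not_le.mp hk
    choose R hR using h1
    set R' : ℝ := ∑ p, ∑ q, |R p q| with hR'
    have hR'0 : 0 ≤ R' := Finset.sum_nonneg fun _ _ => Finset.sum_nonneg fun _ _ => abs_nonneg _
    have hle : ∀ p q, R p q ≤ R' := by
      intro p q
      calc R p q ≤ |R p q| := le_abs_self _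
        _ ≤ ∑ q, |R p q| := Finset.single_le_sum (f := fun q => |R p q|)
            (fun _ _ => abs_nonneg _) (Finset.mem_univ q)
        _ ≤ R' := Finset.single_le_sum (f := fun p => ∑ q, |R p q|)
            (fun _ _ => Finset.sum_nonneg fun _ _ => abs_nonneg _) (Finset.mem_univ p)
    have hev : ∀ᶠ k in (U : Filter α), ∀ p q, p ≠ q → cr p q (h k) < R p q := by
      rw [eventually_all]
      intro p
      rw [eventually_all]
      intro q
      by_cases hpq : p = q
      · exact Eventually.of_forall fun _ hh => absurd hpq hh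
      · filter_upwards [hR p q hpq] with k hk _ using hk
    obtain ⟨k, hk1, i, j, hk2⟩ := (hev.and (hunb ((R' + Fintype.card ι * R' ^ 2)
      * (Fintype.card ι).factorial))).exists
    have h4 := entry_bound (h k) hR'0 (fun p q hpq i j => by
      refine le_trans ?_ ((hk1 p q hpq).le.trans (hle p q))
      exact mul_le_mul (norm_le_pi_norm (fun i => (h k).1 i p) i)
        (norm_le_pi_norm (fun j => ((h k)⁻¹ : SpecialLinearGroup ι ℝ).1 q j) j)
        (abs_nonneg _) (norm_nonneg _)) i j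
    exact absurd hk2 (not_lt.mpr h4)
  exact fixed_of_tendsto hπ U h v hret hpq hw

/-- **Howe–Moore, quantitative form**: if `Q` is a compact set of vectors which are not fixed,
then the elements which almost fix some vector of `Q` are bounded. -/
theorem compact_returns [Nontrivial ι] (hπ : ∀ v, Continuous fun g => π g v) {Q : Set H}
    (hQ : IsCompact Q) (hnf : ∀ v ∈ Q, ¬ IsFixed π v) :
    ∃ ε : ℝ, 0 < ε ∧ ∃ B : ℝ, ∀ h : SpecialLinearGroup ι ℝ, ∀ v ∈ Q, ‖π h v - v‖ ≤ ε →
      ∀ i j, |h.1 i j| ≤ B := by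
  by_contra hcon
  push Not at hcon
  have h1 : ∀ n : ℕ, ∃ (h : SpecialLinearGroup ι ℝ) (v : H), v ∈ Q ∧
      ‖π h v - v‖ ≤ 1 / ((n : ℝ) + 1) ∧ ∃ i j, (n : ℝ) < |h.1 i j| := by
    intro n
    obtain ⟨h, v, hv, h2, i, j, h3⟩ := hcon (1 / ((n : ℝ) + 1)) (by positivity) n
    exact ⟨h, v, hv, h2, i, j, h3⟩
  choose h w hwQ hle hunb using h1
  obtain ⟨v₀, hv₀, hlim⟩ := hQ.ultrafilter_le_nhds' ((hyperfilter ℕ).map w)
    (Filter.Eventually.of_forall hwQ : ∀ᶠ n in (hyperfilter ℕ : Filter ℕ), w n ∈ Q)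
  have hwt : Tendsto w (hyperfilter ℕ) (𝓝 v₀) := hlim
  have hhyp : (hyperfilter ℕ : Filter ℕ) ≤ atTop := by
    rw [← Nat.cofinite_eq_atTop]
    exact hyperfilter_le_cofinite
  refine hnf v₀ hv₀ (returns_ultrafilter hπ (hyperfilter ℕ) h v₀ ?_ ?_)
  · rw [tendsto_iff_norm_sub_tendsto_zero]
    have hwt' : Tendsto (fun n => ‖w n - v₀‖) (hyperfilter ℕ) (𝓝 0) :=
      tendsto_iff_norm_sub_tendsto_zero.mp hwt
    have hε : Tendsto (fun n : ℕ => 1 / ((n : ℝ) + 1)) (hyperfilter ℕ) (𝓝 0) :=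
      tendsto_one_div_add_atTop_nhds_zero_nat.mono_left hhyp
    have h3 := (hwt'.add hε).add hwt'
    rw [add_zero, add_zero] at h3
    refine squeeze_zero (fun _ => norm_nonneg _) (fun n => ?_) h3
    calc ‖π (h n) v₀ - v₀‖ = ‖(π (h n) v₀ - π (h n) (w n)) + (π (h n) (w n) - w n)
          + (w n - v₀)‖ := by congr 1; abel
      _ ≤ ‖π (h n) v₀ - π (h n) (w n)‖ + ‖π (h n) (w n) - w n‖ + ‖w n - v₀‖ := norm_add₃_le
      _ ≤ ‖w n - v₀‖ + 1 / ((n : ℝ) + 1) + ‖w n - v₀‖ := by
          rw [rep_norm_sub, norm_sub_rev v₀]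
          gcongr
          exact hle n
  · intro B
    have h4 : ∀ᶠ n : ℕ in (hyperfilter ℕ : Filter ℕ), B ≤ n :=
      hhyp ((tendsto_natCast_atTop_atTop (R := ℝ)).eventually_ge_atTop B)
    filter_upwards [h4] with n hn
    obtain ⟨i, j, hij⟩ := hunb n
    exact ⟨i, j, hn.trans_lt hij⟩

end HM

end SkewHM
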