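import Pool.Agent.Lib.Helper64.Skew.Floors

/-!
# Oscillation along the floors of a good tower
-/

open MeasureTheory Set Filter Topology

set_option linter.unusedSectionVars false

namespace SkewHM

open SkewIET

variable {n : ℕ} {T : ℝ → ℝ} {J : ℝ → Fin n} {c ε : ℝ}

lemma lint_translate (h : ℝ → ENNReal) (a b s : ℝ) :
    ∫⁻ x in Ico a b, h (x + s) = ∫⁻ x in Ico (a + s) (b + s), h x := by
  have h1 := (measurePreserving_add_right (volume : Measure ℝ) s).setLIntegral_comp_preimage_emb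
    (measurableEmbedding_addRight s) h (Ico (a + s) (b + s))
  rw [← h1]
  congr 2
  ext x
  simp

lemma sum_floors_le {τ : GoodTower T J c ε} (F : Floors T J c ε τ) (h : ℝ → ENNReal) :
    ∑ k ∈ Finset.range τ.N, ∫⁻ x in Ico 0 τ.len, h (x + F.t k) ≤ ∫⁻ x in Ico 0 1, h x := by
  have h1 : ∀ k, ∫⁻ x in Ico 0 τ.len, h (x + F.t k)
      = ∫⁻ x in Ico (F.t k) (F.t k + τ.len), h x := by
    intro k
    rw [lint_translate, zero_add, add_comm τ.len]
  simp_rw [h1]
  rw [← lintegral_biUnion_finset]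
  · refine lintegral_mono_set ?_
    intro x hx
    simp only [mem_iUnion, Finset.mem_range] at hx
    obtain ⟨k, hk, hx⟩ := hx
    exact F.floor_sub k hk hx
  · intro k hk k' hk' hne
    simp only [Finset.coe_range, mem_Iio] at hk hk'
    rcases lt_or_gt_of_ne hne with h2 | h2
    · exact F.floor_disj k hk k' hk' h2
    · exact (F.floor_disj k' hk' k hk h2).symm
  · intro k _
    exact measurableSet_Ico

lemma N_len_le {τ : GoodTower T J c ε} (F : Floors T J c ε τ) :
    (τ.N : ENNReal) * ENNReal.ofReal τ.len ≤ 1 := by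
  have := sum_floors_le F (fun _ => 1)
  simpa using this

section

variable {H : Type*} [NormedAddCommGroup H] [InnerProductSpace ℝ H]
  [MeasurableSpace H] [BorelSpace H] [SecondCountableTopology H]

/-- Total mean oscillation over the floors. -/
noncomputable def osc {τ : GoodTower T J c ε} (F : Floors T J c ε τ) (f : ℝ → H) : ENNReal :=
  ∑ k ∈ Finset.range τ.N, (ENNReal.ofReal τ.len)⁻¹ *
    ∫⁻ x in Ico 0 τ.len, ∫⁻ z in Ico 0 τ.len, ‖f (x + F.t k) - f (z + F.t k)‖ₑ

lemma len_ne {τ : GoodTower T J c ε} : ENNReal.ofReal τ.len ≠ 0 := by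
  rw [ne_eq, ENNReal.ofReal_eq_zero, not_le]; exact τ.len_pos

lemma osc_le_add {τ : GoodTower T J c ε} (F : Floors T J c ε τ) {f f' : ℝ → H}
    (hf : Measurable f) (hf' : Measurable f') :
    osc F f ≤ osc F f' + 2 * ∫⁻ x in Ico 0 1, ‖f x - f' x‖ₑ := by
  set L := ENNReal.ofReal τ.len with hL
  have hL0 : L ≠ 0 := len_ne
  have hLt : L ≠ ⊤ := ENNReal.ofReal_ne_top
  have hkey : ∀ k, L⁻¹ * ∫⁻ x in Ico 0 τ.len, ∫⁻ z in Ico 0 τ.len,
      ‖f (x + F.t k) - f (z + F.t k)‖ₑ
      ≤ L⁻¹ * (∫⁻ x in Ico 0 τ.len, ∫⁻ z in Ico 0 τ.len, ‖f' (x + F.t k) - f' (z + F.t k)‖ₑ)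
        + 2 * ∫⁻ x in Ico 0 τ.len, ‖f (x + F.t k) - f' (x + F.t k)‖ₑ := by
    intro k
    set u : ℝ → ENNReal := fun x => ‖f (x + F.t k) - f' (x + F.t k)‖ₑ with hu
    have hum : Measurable u := by
      have h1 : Measurable fun x : ℝ => f (x + F.t k) := hf.comp (measurable_id.add_const _)
      have h2 : Measurable fun x : ℝ => f' (x + F.t k) := hf'.comp (measurable_id.add_const _)
      exact (h1.sub h2).enorm
    have hw : Measurable fun p : ℝ × ℝ => ‖f' (p.1 + F.t k) - f' (p.2 + F.t k)‖ₑ := by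
      have h1 : Measurable fun p : ℝ × ℝ => f' (p.1 + F.t k) :=
        hf'.comp (measurable_fst.add_const _)
      have h2 : Measurable fun p : ℝ × ℝ => f' (p.2 + F.t k) :=
        hf'.comp (measurable_snd.add_const _)
      exact (h1.sub h2).enorm
    have h3 : ∀ x z, ‖f (x + F.t k) - f (z + F.t k)‖ₑ
        ≤ u x + ‖f' (x + F.t k) - f' (z + F.t k)‖ₑ + u z := by
      intro x z
      have e1 : f (x + F.t k) - f (z + F.t k) = (f (x + F.t k) - f' (x + F.t k))
        + (f' (x + F.t k) - f' (z + F.t k)) + (f' (z + F.t k) - f (z + F.t k)) := by abel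
      rw [e1]
      refine (enorm_add_le _ _).trans ?_
      gcongr
      · exact enorm_add_le _ _
      · rw [hu]; simp only; rw [← enorm_neg, neg_sub]
    have h4 : ∫⁻ x in Ico 0 τ.len, ∫⁻ z in Ico 0 τ.len, ‖f (x + F.t k) - f (z + F.t k)‖ₑ
        ≤ (∫⁻ x in Ico 0 τ.len, ∫⁻ z in Ico 0 τ.len, ‖f' (x + F.t k) - f' (z + F.t k)‖ₑ)
          + L * (2 * ∫⁻ x in Ico 0 τ.len, u x) := by
      calc ∫⁻ x in Ico 0 τ.len, ∫⁻ z in Ico 0 τ.len, ‖f (x + F.t k) - f (z + F.t k)‖ₑ
          ≤ ∫⁻ x in Ico 0 τ.len, ∫⁻ z in Ico 0 τ.len,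
            (u x + ‖f' (x + F.t k) - f' (z + F.t k)‖ₑ + u z) := by
            refine lintegral_mono fun x => lintegral_mono fun z => h3 x z
        _ = ∫⁻ x in Ico 0 τ.len, (u x * L
            + (∫⁻ z in Ico 0 τ.len, ‖f' (x + F.t k) - f' (z + F.t k)‖ₑ)
            + ∫⁻ z in Ico 0 τ.len, u z) := by
            refine lintegral_congr fun x => ?_
            rw [lintegral_add_right _ hum, lintegral_add_left measurable_const, setLIntegral_const,
              Real.volume_Ico, sub_zero]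
        _ = _ := by
            rw [lintegral_add_right _ measurable_const, lintegral_add_left (hum.mul_const _),
              lintegral_mul_const _ hum, setLIntegral_const, Real.volume_Ico, sub_zero]
            ring
    calc L⁻¹ * ∫⁻ x in Ico 0 τ.len, ∫⁻ z in Ico 0 τ.len, ‖f (x + F.t k) - f (z + F.t k)‖ₑ
        ≤ L⁻¹ * ((∫⁻ x in Ico 0 τ.len, ∫⁻ z in Ico 0 τ.len, ‖f' (x + F.t k) - f' (z + F.t k)‖ₑ)
          + L * (2 * ∫⁻ x in Ico 0 τ.len, u x)) := by gcongr
      _ = _ := by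
          rw [mul_add, ← mul_assoc L⁻¹ L, ENNReal.inv_mul_cancel hL0 hLt, one_mul]
  unfold osc
  calc _ ≤ ∑ k ∈ Finset.range τ.N, (L⁻¹ * (∫⁻ x in Ico 0 τ.len, ∫⁻ z in Ico 0 τ.len,
          ‖f' (x + F.t k) - f' (z + F.t k)‖ₑ)
        + 2 * ∫⁻ x in Ico 0 τ.len, ‖f (x + F.t k) - f' (x + F.t k)‖ₑ) :=
        Finset.sum_le_sum fun k _ => hkey k
    _ = _ + 2 * ∑ k ∈ Finset.range τ.N, ∫⁻ x in Ico 0 τ.len,
        ‖f (x + F.t k) - f' (x + F.t k)‖ₑ := by
        rw [Finset.sum_add_distrib, Finset.mul_sum]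
    _ ≤ _ := by
        gcongr
        exact sum_floors_le F fun x => ‖f x - f' x‖ₑ

lemma osc_zero {τ : GoodTower T J c ε} (F : Floors T J c ε τ) :
    osc F (fun _ => (0 : H)) = 0 := by
  simp [osc]

lemma osc_le {τ : GoodTower T J c ε} (F : Floors T J c ε τ) {f : ℝ → H} (hf : Measurable f) :
    osc F f ≤ 2 * ∫⁻ x in Ico 0 1, ‖f x‖ₑ := by
  have := osc_le_add F hf (measurable_const (a := (0 : H)))
  rw [osc_zero, zero_add] at this
  simpa using this

lemma osc_cont {τ : GoodTower T J c ε} (F : Floors T J c ε τ) {f : ℝ → H} {ω : ENNReal}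
    (hω : ∀ x z : ℝ, |x - z| ≤ τ.len → ‖f x - f z‖ₑ ≤ ω) : osc F f ≤ ω := by
  set L := ENNReal.ofReal τ.len with hL
  have hL0 : L ≠ 0 := len_ne
  have hLt : L ≠ ⊤ := ENNReal.ofReal_ne_top
  unfold osc
  calc _ ≤ ∑ k ∈ Finset.range τ.N, L⁻¹ * (L * (L * ω)) := by
        refine Finset.sum_le_sum fun k _ => ?_
        gcongr
        calc ∫⁻ x in Ico 0 τ.len, ∫⁻ z in Ico 0 τ.len, ‖f (x + F.t k) - f (z + F.t k)‖ₑ
            ≤ ∫⁻ x in Ico 0 τ.len, ∫⁻ z in Ico 0 τ.len, ω := by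
              refine setLIntegral_mono' measurableSet_Ico fun x hx => ?_
              refine setLIntegral_mono' measurableSet_Ico fun z hz => ?_
              apply hω
              rw [show x + F.t k - (z + F.t k) = x - z by ring, abs_le]
              constructor <;> linarith [hx.1, hx.2, hz.1, hz.2]
          _ = L * (L * ω) := by
              rw [setLIntegral_const, setLIntegral_const, Real.volume_Ico, sub_zero]
              ring
    _ = (τ.N * L) * ω := by
        rw [Finset.sum_const, Finset.card_range, nsmul_eq_mul, ← mul_assoc L⁻¹ L,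
          ENNReal.inv_mul_cancel hL0 hLt, one_mul, mul_assoc]
    _ ≤ 1 * ω := by
        gcongr
        exact N_len_le F
    _ = ω := one_mul _

theorem osc_small {f : ℝ → H} (hf : Measurable f) (hfi : ∫⁻ x in Ico 0 1, ‖f x‖ₑ ≠ ⊤)
    {η : ENNReal} (hη : η ≠ 0) :
    ∃ ε₀ : ℝ, 0 < ε₀ ∧ ∀ (T : ℝ → ℝ) (J : ℝ → Fin n) (c ε : ℝ), ε ≤ ε₀ →
      ∀ (τ : GoodTower T J c ε) (F : Floors T J c ε τ), osc F f ≤ η := by
  have hint : Integrable f (volume.restrict (Ico 0 1)) :=
    ⟨hf.aestronglyMeasurable, lt_top_iff_ne_top.mpr hfi⟩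
  have hη3 : η / 4 ≠ 0 := by
    simp [ENNReal.div_eq_zero_iff, hη]
  obtain ⟨f', hcs, hle, hcont, -⟩ := hint.exists_hasCompactSupport_lintegral_sub_le hη3
  have huc : UniformContinuous f' := hcs.uniformContinuous_of_continuous hcont
  obtain ⟨ω, hω0, hω⟩ : ∃ ω : ℝ, 0 < ω ∧ ENNReal.ofReal ω ≤ η / 2 := by
    have h1 : η / 2 ≠ 0 := by simp [ENNReal.div_eq_zero_iff, hη]
    by_cases htop : η / 2 = ⊤
    · exact ⟨1, one_pos, by rw [htop]; exact le_top⟩
    · exact ⟨(η / 2).toReal, ENNReal.toReal_pos h1 htop, ENNReal.ofReal_toReal_le⟩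
  rw [Metric.uniformContinuous_iff] at huc
  obtain ⟨δ, hδ, hδ'⟩ := huc ω hω0
  refine ⟨δ / 2, by positivity, fun T J c ε hε τ F => ?_⟩
  calc osc F f ≤ osc F f' + 2 * ∫⁻ x in Ico 0 1, ‖f x - f' x‖ₑ :=
        osc_le_add F hf hcont.measurable
    _ ≤ η / 2 + 2 * (η / 4) := by
        gcongr
        refine osc_cont F fun x z hxz => ?_
        have h1 : dist (f' x) (f' z) < ω := by
          apply hδ'
          rw [Real.dist_eq]
          have := τ.len_le
          linarith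
        rw [dist_eq_norm] at h1
        refine le_trans ?_ hω
        rw [← ofReal_norm_eq_enorm]
        exact ENNReal.ofReal_le_ofReal h1.le
    _ = η := by
        rw [show (η / 4 : ENNReal) = η / 2 / 2 by
          rw [ENNReal.div_eq_inv_mul, ENNReal.div_eq_inv_mul, ENNReal.div_eq_inv_mul, ← mul_assoc,
            ← ENNReal.mul_inv (by simp) (by simp)]
          norm_num]
        rw [ENNReal.mul_div_cancel (by simp) (by simp), ENNReal.add_halves]

end

end SkewHM
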